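import Mathlib
import Pool.Agent.Helper43.Ah.Core
import Pool.Agent.Helper18.Np.Proc

/-!
Rows of lengths `b j` are filled exactly: the plan.
-/

set_option autoImplicit false
set_option linter.unusedSectionVars false

namespace Helper18.Np

open Finset Pool.Agent.Lead.Sh
open Pool.Agent.Helper43.Ah (pat pat_after pat_before pat_at sum_down pat_sum ch2_pos two_ch2
  sum_ch2_lt dist pat_block block)

section run

variable {m R q : ℕ} {ν b : ℕ → ℕ} {J T : ℕ} {st zc : ℕ → ℕ}

lemma Sq.total (h : Sq m R q ν b J T st zc) :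
    ∑ j ∈ range R, ∑ c ∈ range T, pat R (ν c) (st c) (zc c) j =
      ∑ c ∈ range T, (ν c + 1).choose 2 := by
  rw [sum_comm]
  apply sum_congr rfl
  intro c hc
  rw [mem_range] at hc
  exact pat_sum (h.zc_lt c hc) (h.fits c hc)

lemma Sq.pure (h : Sq m R q ν b J T st zc) (hν1 : ∀ c, 1 ≤ ν c) {N0 : ℕ} (hJ : R - 2 * m ≤ J)
    (hJR : J ≤ R) (hoth : ∑ c ∈ range N0, (ν c + 1).choose 2 ≤ ∑ j ∈ range (R - 2 * m), b j) :
    N0 ≤ T := by
  by_contra hcon
  push Not at hcon
  have h1 := sum_ch2_lt hν1 hcon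
  have h2 := h.total
  have h3 : ∑ j ∈ range (R - 2 * m), b j ≤ ∑ j ∈ range R, ∑ c ∈ range T,
      pat R (ν c) (st c) (zc c) j := by
    calc ∑ j ∈ range (R - 2 * m), b j = ∑ j ∈ range (R - 2 * m), ∑ c ∈ range T,
          pat R (ν c) (st c) (zc c) j := by
            apply sum_congr rfl
            intro j hj
            rw [mem_range] at hj
            rw [h.done j (by omega)]
      _ ≤ _ := by
          apply sum_le_sum_of_subset
          intro x hx
          rw [mem_range] at hx ⊢
          omega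
  omega

lemma Sq.pure' (h : Sq m R q ν b J T st zc) (hν1 : ∀ c, 1 ≤ ν c) {N0 : ℕ} (hJ : 1 ≤ J)
    (hoth : ∑ c ∈ range N0, ν c ≤ b 0) : N0 ≤ T := by
  by_contra hcon
  push Not at hcon
  have h1 := h.done 0 (by omega)
  have h2 : ∑ c ∈ range T, pat R (ν c) (st c) (zc c) 0 ≤ ∑ c ∈ range T, ν c := by
    apply sum_le_sum
    intro c hc
    rw [mem_range] at hc
    have h3 := h.fits c hc
    unfold pat
    split_ifs with c1 c2 c3 <;> omega
  have h3 : ∑ c ∈ range (T + 1), ν c ≤ ∑ c ∈ range N0, ν c := by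
    apply sum_le_sum_of_subset
    intro x hx
    rw [mem_range] at hx ⊢
    omega
  rw [sum_range_succ] at h3
  have h4 := hν1 T
  omega

theorem run (m μ R N0 q : ℕ) (ν b : ℕ → ℕ) (hm : 1 ≤ m) (hν1 : ∀ c, 1 ≤ ν c) (hνm : ∀ c, ν c ≤ m)
    (hpure : ∀ c, N0 ≤ c → ν c = μ) 
    (hst : ∀ j, j + 1 < R → (m - 1) * (b j + (2 * m - 1)) ≤ m * b (j + 1))
    (hb1 : ∀ j, j + 1 < R → b j ≤ b (j + 1) + q)
    (hoth : ∀ J T st zc, R - 2 * m ≤ J → J ≤ R → Sq m R q ν b J T st zc → N0 ≤ T) :
    ∀ J ≤ R - μ, ∃ T st zc, (∀ c < T, R - 2 * m ≤ st c → N0 ≤ c) ∧ Sq m R q ν b J T st zc := by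
  intro J
  induction J with
  | zero => intro _; exact ⟨0, fun _ => 0, fun _ => 0, by intro c hc; omega, Sq.zero _ _ _ _ _ _ _⟩
  | succ J ih =>
    intro hJ
    obtain ⟨T, st, zc, hp, h⟩ := ih (by omega)
    have hpT : R - 2 * m ≤ J → N0 ≤ T := fun hJ2 => hoth J T st zc hJ2 (by omega) h
    have hfit : ∀ c, T ≤ c → J + ν c < R := by
      intro c hc
      by_cases hJ2 : R - 2 * m ≤ J
      · rw [hpure c (le_trans (hpT hJ2) hc)]; omega
      · have := hνm c; omega
    obtain ⟨T', st', zc', hTT, e1, e2, h'⟩ := h.step hm hν1 hνm hfit (by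
      intro j hj
      subst hj
      exact hst j (by omega)) (by
      intro j hj
      subst hj
      exact hb1 j (by omega))
    refine ⟨T', st', zc', ?_, h'⟩
    intro c hc hs
    by_cases hcT : c < T
    · rw [e1 c hcT] at hs
      exact hp c hcT hs
    · rw [e2 c (by omega)] at hs
      have := hpT hs
      omega

end run

/-- **The plan.** -/
theorem plan (m μ R N0 N q : ℕ) (ν b : ℕ → ℕ) (hμ : 1 ≤ μ) (hμm : μ ≤ m) (hν1 : ∀ c, 1 ≤ ν c)
    (hνm : ∀ c, ν c ≤ m) (hpure : ∀ c, N0 ≤ c → ν c = μ) (hR : 2 * m < R)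
    (hst : ∀ j, j + 1 < R → (m - 1) * (b j + (2 * m - 1)) ≤ m * b (j + 1))
    (hb1 : ∀ j, j + 1 < R → b j ≤ b (j + 1) + q) (hb2 : ∀ j, j + 1 < R → b (j + 1) ≤ b j + q)
    (hbig : ∀ j < R, R ≤ j + 2 * m → 9 * m ^ 3 + 3 * q * m ^ 2 ≤ b j)
    (hoth : ∑ c ∈ range N0, (ν c + 1).choose 2 ≤ ∑ j ∈ range (R - 2 * m), b j ∨
      ∑ c ∈ range N0, ν c ≤ b 0)
    (htot : ∑ c ∈ range N, (ν c + 1).choose 2 = ∑ j ∈ range R, b j) :
    ∃ st zc : ℕ → ℕ, (∀ c < N, st c + zc c < R ∧ zc c ≤ ν c) ∧
      ∀ j < R, b j ≤ ∑ c ∈ range N, pat R (ν c) (st c) (zc c) j := by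
  classical
  have hm : 1 ≤ m := le_trans hμ hμm
  have hoth' : ∀ J T st zc, R - 2 * m ≤ J → J ≤ R → Sq m R q ν b J T st zc → N0 ≤ T := by
    intro J T st zc hJ1 hJ2 hS
    rcases hoth with h | h
    · exact hS.pure hν1 hJ1 hJ2 h
    · exact hS.pure' hν1 (by omega) h
  obtain ⟨T, st, zc, hp, h⟩ := run m μ R N0 q ν b hm hν1 hνm hpure hst hb1 hoth' (R - μ) le_rfl
  obtain ⟨J0, hJ0⟩ : ∃ J0, R = J0 + μ := ⟨R - μ, by omega⟩
  rw [show R - μ = J0 by omega] at h
  have hT0 : N0 ≤ T := hoth' _ _ _ _ (by omega) (by omega) h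
  set K : ℕ → ℕ := fun i => ∑ c ∈ range T, pat R (ν c) (st c) (zc c) i with hK
  have hbj : ∀ e j, j + e < R → b j ≤ b (j + e) + e * q := by
    intro e
    induction e with
    | zero => intro j _; simp
    | succ e ih =>
      intro j hj
      have h1 := ih j (by omega)
      have h2 := hb1 (j + e) (by omega)
      rw [← add_assoc j e 1, add_mul, one_mul]
      omega
  have hKle : ∀ i, J0 ≤ i → i < R → K i ≤ b i := by
    intro i hi hiR
    have h1 := h.bound hm hνm (j := J0 - 1) (by omega) hi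
    have h2 := hbj (i - (J0 - 1)) (J0 - 1) (by omega)
    rw [show J0 - 1 + (i - (J0 - 1)) = i by omega] at h2
    have h3 : b (J0 - 1) ≤ b i + m * q := by
      have : (i - (J0 - 1)) * q ≤ m * q := Nat.mul_le_mul_right _ (by omega)
      omega
    have h4 := hbig i hiR (by omega)
    have h5 : m * K i ≤ m * b i := by
      obtain ⟨p, rfl⟩ : ∃ p, m = p + 1 := ⟨m - 1, by omega⟩
      rw [Nat.add_sub_cancel] at h1
      have h7 : p * (b (J0 - 1) + p) ≤ p * (b i + (p + 1) * q + p) :=
        Nat.mul_le_mul_left _ (by omega)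
      have h8 : 9 * (p + 1) ^ 3 = 9 * p ^ 3 + 27 * p ^ 2 + 27 * p + 9 := by ring
      have h9 : 3 * q * (p + 1) ^ 2 = 3 * (q * p ^ 2) + 6 * (q * p) + 3 * q := by ring
      rw [h8, h9] at h4
      calc (p + 1) * K i ≤ p * (b (J0 - 1) + p) + (p + 1) * p := h1
        _ ≤ p * (b i + (p + 1) * q + p) + (p + 1) * p := by omega
        _ = p * b i + (q * p ^ 2 + q * p + 2 * p ^ 2 + p) := by ring
        _ ≤ p * b i + b i := by
            have : 0 ≤ p ^ 3 := Nat.zero_le _
            omega
        _ = (p + 1) * b i := by ring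
    exact Nat.le_of_mul_le_mul_left h5 (by omega)
  have hKdone : ∀ j < J0, K j = b j := h.done
  have htotT := h.total
  have hTN : T ≤ N := by
    by_contra hcon
    push Not at hcon
    have h1 := sum_ch2_lt hν1 hcon
    have h2 : ∑ j ∈ range R, K j ≤ ∑ j ∈ range R, b j := by
      apply sum_le_sum
      intro j hj
      rw [mem_range] at hj
      by_cases hjJ : j < J0
      · rw [hKdone j hjJ]
      · exact hKle j (by omega) hj
    simp only [hK] at h2
    omega
  obtain ⟨n, rfl⟩ := Nat.exists_eq_add_of_le hTN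
  set ρ : ℕ → ℤ := fun t => (b (R - 1 - t) : ℤ) - (K (R - 1 - t) : ℤ) with hρ
  have hρμ : ρ μ = 0 := by
    simp only [hρ]
    rw [hKdone (R - 1 - μ) (by omega)]; ring
  have hρnn : ∀ t < μ, 0 ≤ ρ t := by
    intro t ht
    simp only [hρ]
    have := hKle (R - 1 - t) (by omega) (by omega)
    omega
  have hK0 : K (R - 1) = 0 := by
    apply sum_eq_zero
    intro c hc
    rw [mem_range] at hc
    have h1 := h.fits c hc
    have h2 := h.zc_lt c hc
    have h3 := h.st_lt c hc
    rw [pat_after (by omega) h2, if_neg (by omega)]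
    omega
  have hρ0 : ρ 0 = b (R - 1) := by
    simp only [hρ]
    rw [Nat.sub_zero, hK0]; simp
  have hsumρ : ∑ t ∈ range μ, ρ t = ∑ j ∈ range R, ((b j : ℤ) - K j) := by
    have e1 : ∑ j ∈ range R, ((b j : ℤ) - K j) = ∑ j ∈ range J0, ((b j : ℤ) - K j) +
        ∑ j ∈ Ico J0 R, ((b j : ℤ) - K j) := by
      rw [range_eq_Ico, range_eq_Ico, sum_Ico_consecutive _ (by omega) (by omega)]
    have e2 : ∑ j ∈ range J0, ((b j : ℤ) - K j) = 0 := by
      apply sum_eq_zero
      intro j hj
      rw [mem_range] at hj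
      rw [hKdone j hj]; ring
    rw [e1, e2, zero_add, sum_Ico_eq_sum_range, show R - J0 = μ by omega,
      ← sum_range_reflect]
    apply sum_congr rfl
    intro t ht
    rw [mem_range] at ht
    simp only [hρ]
    rw [show R - 1 - (μ - 1 - t) = J0 + t by omega]
  have hcells : ∑ j ∈ range R, ((b j : ℤ) - K j) = (n : ℤ) * ((μ + 1).choose 2 : ℕ) := by
    rw [sum_sub_distrib]
    have e1 : (∑ j ∈ range R, (b j : ℤ)) = ((∑ c ∈ range (T + n), (ν c + 1).choose 2 : ℕ) : ℤ) := by
      rw [htot]; push_cast; rfl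
    have e2 : (∑ j ∈ range R, (K j : ℤ)) = ((∑ c ∈ range T, (ν c + 1).choose 2 : ℕ) : ℤ) := by
      rw [← htotT]; push_cast [hK]; rfl
    rw [e1, e2]
    have e3 : ∑ c ∈ range (T + n), (ν c + 1).choose 2 = ∑ c ∈ range T, (ν c + 1).choose 2 +
        n * (μ + 1).choose 2 := by
      rw [sum_range_add]
      congr 1
      rw [sum_congr rfl (g := fun _ => (μ + 1).choose 2)]
      · rw [sum_const, card_range, smul_eq_mul]
      · intro c _
        rw [hpure (T + c) (by omega)]
    rw [e3]; push_cast; ring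
  have htotρ : 2 * ∑ t ∈ range μ, ρ t = (n : ℤ) * μ * (μ + 1) := by
    rw [hsumρ, hcells]
    have := two_ch2 μ
    have h2 : (2 : ℤ) * ((μ + 1).choose 2 : ℕ) = (μ : ℤ) * (μ + 1) := by exact_mod_cast this
    calc (2 : ℤ) * ((n : ℤ) * ((μ + 1).choose 2 : ℕ)) = n * (2 * ((μ + 1).choose 2 : ℕ)) := by ring
      _ = _ := by rw [h2]; ring
  have hn1 : 1 ≤ n := by
    by_contra hcon
    have hn0 : n = 0 := by omega
    have h1 : ∑ t ∈ range μ, ρ t = 0 := by
      have : (n : ℤ) = 0 := by omega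
      rw [this] at htotρ; linarith
    have h2 := single_le_sum (f := ρ) (s := range μ) (fun t ht => hρnn t (mem_range.1 ht))
      (mem_range.2 (show 0 < μ by omega))
    have h3 := hbig (R - 1) (by omega) (by omega)
    have h4 : 1 ≤ m ^ 3 := Nat.one_le_pow _ _ hm
    rw [hρ0] at h2
    omega
  -- nominal contributions
  set A : ℕ → ℕ := fun i => ∑ c ∈ range T, (ν c - (i - st c)) with hA
  have hKA : ∀ i, J0 ≤ i → A i ≤ K i ∧ K i ≤ A i + (m - 1) := by
    intro i hi
    have h1 := h.sum_after hi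
    have h2 := h.drop i hi
    simp only [hK, hA]
    omega
  have hKA' : A (J0 - 1) ≤ K (J0 - 1) + (m - 1) := by
    rw [hKdone _ (by omega)]
    exact h.nom (J0 - 1) (by omega)
  have hsd : ∀ i, J0 ≤ i → 2 * A i + ((range T).filter (fun c => st c + ν c = i)).card ≤
      A (i + 1) + A (i - 1) := by
    intro i hi
    simp only [hA]
    rw [mul_sum, card_filter, ← sum_add_distrib, ← sum_add_distrib]
    apply sum_le_sum
    intro c hc
    rw [mem_range] at hc
    have h1 := h.st_lt c hc
    split_ifs with h2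
    · omega
    · omega
  have hcnt : ∀ i, J0 ≤ i → i + 1 < R → 6 * m + 2 * q ≤
      ((range T).filter (fun c => st c + ν c = i)).card := by
    intro i hi hiR
    have h1 := h.cnt (i - μ) (by omega)
    have h2 := hbig (i - μ) (by omega) (by omega)
    have h3 : ((range T).filter (fun c => st c = i - μ)).card ≤
        ((range T).filter (fun c => st c + ν c = i)).card := by
      apply card_le_card
      intro c hc
      rw [mem_filter, mem_range] at hc ⊢
      refine ⟨hc.1, ?_⟩
      have := hp c hc.1 (by omega)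
      rw [hpure c this]
      omega
    by_contra hcon
    push Not at hcon
    set p := ((range T).filter (fun c => st c = i - μ)).card
    have h4 : p + 1 ≤ 6 * m + 2 * q := by omega
    have h5 : m * (m * (p + 1)) ≤ m * (m * (6 * m + 2 * q)) :=
      Nat.mul_le_mul_left _ (Nat.mul_le_mul_left _ h4)
    have h6 : m * (m * (6 * m + 2 * q)) = 6 * m ^ 3 + 2 * (q * m ^ 2) := by ring
    have h6' : m * (m * (p + 1)) = m * (m * p) + m * m := by ring
    have h7 : m * m ≤ m ^ 3 := by
      have e : m ^ 3 = m * m * m := by ring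
      rw [e]; exact Nat.le_mul_of_pos_right _ hm
    have h8 : q * m ≤ q * m ^ 2 := by
      apply Nat.mul_le_mul_left
      rw [pow_two]
      exact Nat.le_mul_of_pos_right _ hm
    have h9 : 2 * m * m = 2 * (m * m) := by ring
    have h10 : 3 * q * m ^ 2 = 3 * (q * m ^ 2) := by ring
    have h11 : 1 ≤ m * m := Nat.mul_pos hm hm
    rw [h9] at h1
    rw [h10] at h2
    rw [h6, h6'] at h5
    omega
  have hnq : q ≤ n := by
    by_contra hcon
    push Not at hcon
    have h1 : ∀ t ∈ range μ, 0 ≤ ρ t := fun t ht => hρnn t (mem_range.1 ht)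
    have h2 : ρ 0 ≤ ∑ t ∈ range μ, ρ t :=
      single_le_sum (f := ρ) (s := range μ) h1 (mem_range.2 (show 0 < μ by omega))
    have h3 := hbig (R - 1) (by omega) (by omega)
    have h4 : (n : ℤ) * μ * (μ + 1) ≤ q * (2 * m ^ 2) := by
      have h5 : (n * (μ * (μ + 1)) : ℕ) ≤ q * (2 * m ^ 2) := by
        apply Nat.mul_le_mul hcon.le
        nlinarith
      have h6 : ((n * (μ * (μ + 1)) : ℕ) : ℤ) ≤ ((q * (2 * m ^ 2) : ℕ) : ℤ) := by exact_mod_cast h5
      push_cast at h6
      calc (n : ℤ) * μ * (μ + 1) = n * (μ * (μ + 1)) := by ring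
        _ ≤ _ := h6
    have h7 : ((9 * m ^ 3 + 3 * q * m ^ 2 : ℕ) : ℤ) ≤ b (R - 1) := by exact_mod_cast h3
    push_cast at h7
    rw [hρ0] at h2
    rw [← htotρ] at h4
    have h8 : (1 : ℤ) ≤ (m : ℤ) ^ 3 := by exact_mod_cast Nat.one_le_pow 3 m hm
    have h9 : (0 : ℤ) ≤ (q : ℤ) * m ^ 2 := by positivity
    nlinarith
  obtain ⟨X, z, hXz, hzlast, hXn, hblock⟩ := block (n : ℤ) ρ μ hμ (by positivity) hρμ htotρ (by
    intro u hu1 hu2
    have e1 : R - 1 - (u + 1) = R - 1 - u - 1 := by omega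
    have e2 : R - 1 - (u - 1) = R - 1 - u + 1 := by omega
    simp only [hρ]
    rw [e1, e2]
    set i := R - 1 - u with hi
    have hiJ : J0 ≤ i := by omega
    have c1 := hcnt i hiJ (by omega)
    have c2 := hsd i hiJ
    have c3 := hKA i hiJ
    have c4 := hKA (i + 1) (by omega)
    have c5 : A (i - 1) ≤ K (i - 1) + (m - 1) := by
      by_cases h7 : J0 ≤ i - 1
      · have := hKA (i - 1) h7
        omega
      · rw [show i - 1 = J0 - 1 by omega]; exact hKA'
    have c6 := hb1 (i - 1) (by omega)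
    rw [show i - 1 + 1 = i by omega] at c6
    have c7 := hb2 i (by omega)
    omega) (by
    by_cases h1 : μ = 1
    · subst h1
      rw [hρμ, hρ0]; positivity
    · rw [hρ0]
      simp only [hρ]
      have c6 := hb1 (R - 1 - 1) (by omega)
      rw [show R - 1 - 1 + 1 = R - 1 by omega] at c6
      have : (0 : ℤ) ≤ K (R - 1 - 1) := by positivity
      omega)
  -- natural numbers
  have hXnn : ∀ j < μ, 0 ≤ X j := fun j hj => le_trans (hXz j hj).1 (hXz j hj).2
  have hXsum : ∑ i ∈ range μ, (X i).toNat = n := by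
    have : ((∑ i ∈ range μ, (X i).toNat : ℕ) : ℤ) = n := by
      rw [← hXn]; push_cast
      apply sum_congr rfl
      intro i hi
      rw [mem_range] at hi
      exact Int.toNat_of_nonneg (hXnn i hi)
    exact_mod_cast this
  obtain ⟨s, w, hs, hF⟩ := dist J0 T (fun i => (X i).toNat) (fun i => (z i).toNat) μ (by
    intro i hi
    exact Int.toNat_le_toNat (hXz i hi).2)
  rw [hXsum] at hs hF
  refine ⟨fun c => if c < T then st c else s c, fun c => if c < T then zc c else w c,
    fun c hc => ⟨?_, ?_⟩, ?_⟩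
  · by_cases hcT : c < T
    · simp only [if_pos hcT]
      have h1 := h.fits c hcT
      have h2 := h.zc_lt c hcT
      omega
    · simp only [if_neg hcT]
      obtain ⟨i, hi, e1, e2⟩ := hs c (by omega) hc
      rw [e1]
      rcases e2 with e2 | ⟨e2, e3⟩
      · rw [e2]; omega
      · rw [e2]
        by_cases h4 : i = μ - 1
        · rw [h4, hzlast] at e3; simp at e3
        · omega
  · by_cases hcT : c < T
    · simp only [if_pos hcT]
      exact (h.zc_lt c hcT).le
    · simp only [if_neg hcT]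
      obtain ⟨i, hi, e1, e2⟩ := hs c (by omega) hc
      have := hν1 c
      rcases e2 with e2 | ⟨e2, e3⟩ <;> omega
  · intro j hj
    have esum : ∑ c ∈ range (T + n), pat R (ν c) ((fun c => if c < T then st c else s c) c)
        ((fun c => if c < T then zc c else w c) c) j = K j +
          ∑ c ∈ Ico T (T + n), pat R μ (s c) (w c) j := by
      rw [range_eq_Ico, ← sum_Ico_consecutive _ (show 0 ≤ T by omega) (show T ≤ T + n by omega),
        ← range_eq_Ico]
      congr 1
      · apply sum_congr rfl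
        intro c hc
        rw [mem_range] at hc
        simp only [if_pos hc]
      · apply sum_congr rfl
        intro c hc
        rw [mem_Ico] at hc
        simp only [if_neg (show ¬ c < T by omega)]
        rw [hpure c (by omega)]
    rw [esum]
    by_cases hjJ : j < J0
    · rw [hKdone j hjJ]; omega
    · obtain ⟨j', rfl⟩ : ∃ j', j = J0 + j' := ⟨j - J0, by omega⟩
      have hj' : j' < μ := by omega
      rw [hF (fun a d => pat R μ a d (J0 + j'))]
      have key : ((∑ i ∈ range μ, ((z i).toNat * pat R μ (J0 + i) 1 (J0 + j') +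
          ((X i).toNat - (z i).toNat) * pat R μ (J0 + i) 0 (J0 + j')) : ℕ) : ℤ) = ρ (μ - 1 - j') := by
        rw [← hblock j' hj', hJ0]
        rw [Nat.cast_sum]
        have e1 : ∀ i ∈ range μ, (((z i).toNat * pat (J0 + μ) μ (J0 + i) 1 (J0 + j') +
          ((X i).toNat - (z i).toNat) * pat (J0 + μ) μ (J0 + i) 0 (J0 + j') : ℕ) : ℤ) =
            X i * (if j' < i then (j' : ℤ) + 1 else (μ : ℤ) - j' + i) -
              (if j' = i then z i else 0) + (if j' = i + 1 then z i else 0) := by
          intro i hi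
          rw [mem_range] at hi
          rw [pat_block J0 μ i j' hi hj' _ _ (Int.toNat_le_toNat (hXz i hi).2) hμ]
          rw [Int.toNat_of_nonneg (hXnn i hi), Int.toNat_of_nonneg (hXz i hi).1]
        rw [sum_congr rfl e1, sum_add_distrib, sum_sub_distrib]
        congr 1
        · congr 1
          rw [sum_ite_eq, if_pos (mem_range.2 hj')]
        · by_cases hj0 : j' = 0
          · subst hj0
            simp
          · rw [if_neg hj0]
            rw [sum_eq_single (j' - 1)]
            · rw [if_pos (by omega)]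
            · intro i _ hne
              rw [if_neg (by omega)]
            · intro hn
              exfalso; apply hn; rw [mem_range]; omega
      have hρv : ρ (μ - 1 - j') = (b (J0 + j') : ℤ) - K (J0 + j') := by
        simp only [hρ]
        rw [show R - 1 - (μ - 1 - j') = J0 + j' by omega]
      rw [hρv] at key
      omega

end Helper18.Np
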