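import Mathlib
import Pool.Agent.Helper18.Np.Plan
import Pool.Agent.Helper39.Ah.Strip

/-!
Plans for sets of points, and points of medium multiplicity at the end of the process.
-/

set_option autoImplicit false
set_option linter.unusedSectionVars false

namespace Helper18.Np

open Finset Pool.Agent.Lead.Sh
open Pool.Agent.Helper43.Ah (pat pat_after pat_before pat_at sum_down pat_sum ch2_pos two_ch2
  sum_ch2_lt fill_inj rowsD mem_rowsD inj_relabel card_rowsD rowsD_congr)
open Pool.Agent.Helper39.Ah (enum2 enum_sum)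

/-- filling rows with patterns, for a set of points -/
theorem fill_set (R : ℕ) (mm : ℕ → ℕ) (S : Finset ℕ) (st zc b : ℕ → ℕ)
    (h1 : ∀ k ∈ S, st k + zc k < R ∧ zc k ≤ mm k)
    (hb : ∀ j < R, b j ≤ ∑ k ∈ S, pat R (mm k) (st k) (zc k) j) :
    Inj (rowsD R (fun y => b (R - 1 - y))) (rows mm S) := by
  obtain ⟨e, idx, he, hidx⟩ := enum2 S
  have hF := fill_inj R S.card (fun c => mm (e c)) (fun c => st (e c)) (fun c => zc (e c)) b
    (fun c hc => (h1 _ (he c hc).1).1) (fun c hc => (h1 _ (he c hc).1).2) (by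
      intro j hj
      rw [enum_sum he hidx (fun k => pat R (mm k) (st k) (zc k) j)]
      exact hb j hj)
  refine inj_relabel e ?_ ?_ ?_ hF
  · intro c hc
    exact (he c (mem_range.1 hc)).1
  · intro c hc c' hc' hee
    rw [← (he c (mem_range.1 hc)).2, ← (he c' (mem_range.1 hc')).2, hee]
  · intro c _; rfl

/-- the plan for sets of points -/
theorem plan_set (m μ R q : ℕ) (mm b : ℕ → ℕ) (O P : Finset ℕ) (hOP : Disjoint O P)
    (hμ : 1 ≤ μ) (hμm : μ ≤ m) (hO1 : ∀ k ∈ O, 1 ≤ mm k) (hOm : ∀ k ∈ O, mm k ≤ m)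
    (hP : ∀ k ∈ P, mm k = μ) (hR : 2 * m < R)
    (hst : ∀ j, j + 1 < R → (m - 1) * (b j + (2 * m - 1)) ≤ m * b (j + 1))
    (hb1 : ∀ j, j + 1 < R → b j ≤ b (j + 1) + q) (hb2 : ∀ j, j + 1 < R → b (j + 1) ≤ b j + q)
    (hbig : ∀ j < R, R ≤ j + 2 * m → 9 * m ^ 3 + 3 * q * m ^ 2 ≤ b j)
    (hoth : ∑ k ∈ O, (mm k + 1).choose 2 ≤ ∑ j ∈ range (R - 2 * m), b j ∨ ∑ k ∈ O, mm k ≤ b 0)
    (htot : ∑ k ∈ O, (mm k + 1).choose 2 + P.card * (μ + 1).choose 2 = ∑ j ∈ range R, b j) :
    ∃ st zc : ℕ → ℕ, (∀ k ∈ O ∪ P, st k + zc k < R ∧ zc k ≤ mm k) ∧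
      ∀ j < R, b j ≤ ∑ k ∈ O ∪ P, pat R (mm k) (st k) (zc k) j := by
  classical
  obtain ⟨e1, i1, he1, hi1⟩ := enum2 O
  obtain ⟨e2, i2, he2, hi2⟩ := enum2 P
  set ν : ℕ → ℕ := fun c => if c < O.card then mm (e1 c) else μ with hν
  have hs1 : ∑ c ∈ range O.card, (ν c + 1).choose 2 = ∑ k ∈ O, (mm k + 1).choose 2 := by
    rw [← enum_sum he1 hi1 (fun k => (mm k + 1).choose 2)]
    apply sum_congr rfl
    intro c hc
    rw [mem_range] at hc
    simp only [hν, if_pos hc]
  have hs2 : ∑ c ∈ range (O.card + P.card), (ν c + 1).choose 2 =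
      ∑ k ∈ O, (mm k + 1).choose 2 + P.card * (μ + 1).choose 2 := by
    rw [sum_range_add, hs1]
    congr 1
    rw [sum_congr rfl (g := fun _ => (μ + 1).choose 2)]
    · rw [sum_const, card_range, smul_eq_mul]
    · intro c _
      simp only [hν]
      rw [if_neg (by omega)]
  obtain ⟨st, zc, h1, h2⟩ := plan m μ R O.card (O.card + P.card) q ν b hμ hμm (by
      intro c
      simp only [hν]
      split_ifs with hc
      · exact hO1 _ (he1 c hc).1
      · exact hμ) (by
      intro c
      simp only [hν]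
      split_ifs with hc
      · exact hOm _ (he1 c hc).1
      · exact hμm) (by
      intro c hc
      simp only [hν]
      rw [if_neg (by omega)]) hR hst hb1 hb2 hbig (by
      rcases hoth with h | h
      · exact Or.inl (by rw [hs1]; exact h)
      · right
        refine le_trans (le_of_eq ?_) h
        rw [← enum_sum he1 hi1 mm]
        apply sum_congr rfl
        intro c hc
        rw [mem_range] at hc
        simp only [hν, if_pos hc]) (by rw [hs2]; exact htot)
  have hPO : ∀ k ∈ P, k ∉ O := fun k hk hk2 => (disjoint_left.1 hOP) hk2 hk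
  refine ⟨fun k => if k ∈ O then st (i1 k) else st (O.card + i2 k),
    fun k => if k ∈ O then zc (i1 k) else zc (O.card + i2 k), ?_, ?_⟩
  · intro k hk
    by_cases hkO : k ∈ O
    · simp only [if_pos hkO]
      have h3 := h1 (i1 k) (by have := (hi1 k hkO).1; omega)
      have e : ν (i1 k) = mm k := by
        simp only [hν]
        rw [if_pos (hi1 k hkO).1, (hi1 k hkO).2]
      rw [e] at h3
      exact h3
    · have hkP : k ∈ P := by
        rcases mem_union.1 hk with h | h
        · exact absurd h hkO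
        · exact h
      simp only [if_neg hkO]
      have h3 := h1 (O.card + i2 k) (by have := (hi2 k hkP).1; omega)
      have e : ν (O.card + i2 k) = mm k := by
        simp only [hν]
        rw [if_neg (by omega), hP k hkP]
      rw [e] at h3
      exact h3
  · intro j hj
    refine (h2 j hj).trans (le_of_eq ?_)
    rw [sum_union hOP, sum_range_add]
    congr 1
    · rw [← enum_sum he1 hi1]
      apply sum_congr rfl
      intro c hc
      rw [mem_range] at hc
      have h3 := he1 c hc
      beta_reduce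
      rw [if_pos h3.1, if_pos h3.1, h3.2]
      simp only [hν, if_pos hc]
    · rw [← enum_sum he2 hi2]
      apply sum_congr rfl
      intro c hc
      rw [mem_range] at hc
      have h3 := he2 c hc
      beta_reduce
      rw [if_neg (hPO _ h3.1), if_neg (hPO _ h3.1), h3.2]
      simp only [hν]
      rw [if_neg (by omega), hP _ h3.1]

theorem pat_last {R a j : ℕ} (hj : j < R) : pat R a (R - 1) 0 j = a - (R - 1 - j) := by
  unfold pat
  by_cases h : j < R - 1
  · rw [if_pos h]; omega
  · rw [if_neg h, if_pos (by omega)]; omega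

/-- the cells taken by the medium points -/
def fm (mm : ℕ → ℕ) (K : Finset ℕ) (y : ℕ) : ℕ := ∑ k ∈ K, (mm k - y)

theorem fm_zero_of {mm : ℕ → ℕ} {K : Finset ℕ} {y : ℕ} (h : ∀ k ∈ K, mm k ≤ y) : fm mm K y = 0 := by
  unfold fm
  apply sum_eq_zero
  intro k hk
  have := h k hk
  omega

theorem fm_anti (mm : ℕ → ℕ) (K : Finset ℕ) {y y' : ℕ} (h : y ≤ y') : fm mm K y' ≤ fm mm K y := by
  unfold fm
  apply sum_le_sum
  intro k _
  omega

theorem fm_drop (mm : ℕ → ℕ) (K : Finset ℕ) (y : ℕ) : fm mm K y ≤ fm mm K (y + 1) + K.card := by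
  unfold fm
  rw [card_eq_sum_ones, ← sum_add_distrib]
  apply sum_le_sum
  intro k _
  omega

theorem sum_sub_all (a R : ℕ) (h : a ≤ R) : ∑ y ∈ range R, (a - y) = (a + 1).choose 2 := by
  have h1 := sum_down a a le_rfl
  rw [Nat.sub_self, zero_mul, add_zero] at h1
  have h2 := two_ch2 a
  have h3 : ∑ y ∈ range R, (a - y) = ∑ y ∈ range a, (a - y) := by
    symm
    apply sum_subset
    · intro x hx; rw [mem_range] at hx ⊢; omega
    · intro x _ hx
      rw [mem_range] at hx
      omega
  rw [h3]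
  omega

theorem sum_fm (mm : ℕ → ℕ) (K : Finset ℕ) (R : ℕ) (h : ∀ k ∈ K, mm k ≤ R) :
    ∑ y ∈ range R, fm mm K y = ∑ k ∈ K, (mm k + 1).choose 2 := by
  unfold fm
  rw [sum_comm]
  apply sum_congr rfl
  intro k hk
  exact sum_sub_all _ _ (h k hk)

/-- exact totals, with medium points -/
theorem near_med (m μ R n q : ℕ) (b' : ℕ → ℕ) (E : Finset (ℕ × ℕ)) (hμ : 1 ≤ μ) (hμm : μ ≤ m)
    (hE : ∀ d ∈ E, R ≤ d.2) (hEi : Inj E (rows (fun _ => μ) (range n)))
    (s K : Finset ℕ) (mm : ℕ → ℕ) (hKs : Disjoint K s)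
    (h1 : ∀ k ∈ s, 1 ≤ mm k) (hmm : ∀ k ∈ s, mm k ≤ m) (hR : 2 * m < R)
    (hst : ∀ y, y + 1 < R → (m - 1) * (b' (y + 1) + (2 * m - 1)) ≤ m * b' y)
    (hb1 : ∀ y, y + 1 < R → b' (y + 1) ≤ b' y + q) (hb2 : ∀ y, y + 1 < R → b' y ≤ b' (y + 1) + q)
    (hbig : ∀ y < 2 * m, 9 * m ^ 3 + 3 * q * m ^ 2 ≤ b' y)
    (htot : ∑ k ∈ s, (mm k + 1).choose 2 = n * (μ + 1).choose 2 + ∑ y ∈ range R, b' y)
    (hn : n * (μ + 1).choose 2 + ∑ y ∈ range (2 * m), b' y ≤
      (s.filter (fun k => mm k = μ)).card * (μ + 1).choose 2) :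
    Inj (rowsD R (fun y => b' y + fm mm K y) ∪ E) (rows mm (K ∪ s)) := by
  classical
  set Cμ := (μ + 1).choose 2 with hCμ
  have hCpos : 1 ≤ Cμ := ch2_pos hμ
  set sμ := s.filter (fun k => mm k = μ) with hsμ
  set oth := s.filter (fun k => ¬ mm k = μ) with hoth
  have hnc : n ≤ sμ.card := by
    have : n * Cμ ≤ sμ.card * Cμ := by omega
    exact Nat.le_of_mul_le_mul_right this (by omega)
  obtain ⟨sE, hsE, hsEc⟩ := exists_subset_card_eq hnc
  set rest := sμ \ sE with hrest
  have hrestc : rest.card + n = sμ.card := by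
    rw [hrest, card_sdiff_of_subset hsE, hsEc]; omega
  have hothm : ∀ k ∈ oth, k ∈ s ∧ mm k ≠ μ := fun k hk => mem_filter.1 hk
  have hrestm : ∀ k ∈ rest, k ∈ s ∧ mm k = μ ∧ k ∉ sE := by
    intro k hk
    rw [hrest, mem_sdiff, hsμ, mem_filter] at hk
    exact ⟨hk.1.1, hk.1.2, hk.2⟩
  have hsEm : ∀ k ∈ sE, k ∈ s ∧ mm k = μ := fun k hk => mem_filter.1 (hsE hk)
  have hsum1 : ∑ k ∈ s, (mm k + 1).choose 2 = ∑ k ∈ oth, (mm k + 1).choose 2 + sμ.card * Cμ := by
    rw [← sum_filter_add_sum_filter_not s (fun k => mm k = μ), add_comm]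
    congr 1
    rw [sum_congr rfl (g := fun _ => Cμ)]
    · rw [sum_const, smul_eq_mul]
    · intro k hk
      rw [(mem_filter.1 hk).2]
  have hdj : Disjoint oth rest := by
    rw [disjoint_left]
    intro k hk hk2
    exact (hothm k hk).2 (hrestm k hk2).2.1
  have hrefl : ∀ t ≤ R, ∑ j ∈ range t, b' (R - 1 - j) = ∑ y ∈ Ico (R - t) R, b' y := by
    intro t ht
    rw [sum_Ico_eq_sum_range, show R - (R - t) = t by omega, ← sum_range_reflect]
    apply sum_congr rfl
    intro j hj
    rw [mem_range] at hj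
    congr 1
    omega
  have hsplitb : ∑ y ∈ range R, b' y = ∑ y ∈ range (2 * m), b' y + ∑ y ∈ Ico (2 * m) R, b' y := by
    rw [range_eq_Ico, range_eq_Ico, sum_Ico_consecutive _ (by omega) (by omega)]
  have hrc : rest.card * Cμ + n * Cμ = sμ.card * Cμ := by rw [← add_mul, hrestc]
  obtain ⟨st, zc, hp1, hp2⟩ := plan_set m μ R q mm (fun j => b' (R - 1 - j)) oth rest hdj hμ hμm
    (fun k hk => h1 k (hothm k hk).1) (fun k hk => hmm k (hothm k hk).1)
    (fun k hk => (hrestm k hk).2.1) hR (by
      intro j hj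
      have := hst (R - 1 - (j + 1)) (by omega)
      rw [show R - 1 - (j + 1) + 1 = R - 1 - j by omega] at this
      exact this) (by
      intro j hj
      have := hb1 (R - 1 - (j + 1)) (by omega)
      rw [show R - 1 - (j + 1) + 1 = R - 1 - j by omega] at this
      exact this) (by
      intro j hj
      have := hb2 (R - 1 - (j + 1)) (by omega)
      rw [show R - 1 - (j + 1) + 1 = R - 1 - j by omega] at this
      exact this) (by
      intro j hj hj2
      exact hbig _ (by omega)) (by
      left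
      rw [hrefl _ (by omega), show R - (R - 2 * m) = 2 * m by omega]
      omega) (by
      rw [hrefl R le_rfl, Nat.sub_self, ← range_eq_Ico, ← hCμ]
      omega)
  have hKor : Disjoint K (oth ∪ rest) := by
    rw [disjoint_left]
    intro k hk hk2
    rcases mem_union.1 hk2 with h | h
    · exact (disjoint_left.1 hKs) hk (hothm k h).1
    · exact (disjoint_left.1 hKs) hk (hrestm k h).1
  have hA : Inj (rowsD R (fun y => b' y + fm mm K y)) (rows mm (K ∪ (oth ∪ rest))) := by
    have hF := fill_set R mm (K ∪ (oth ∪ rest)) (fun k => if k ∈ K then R - 1 else st k)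
      (fun k => if k ∈ K then 0 else zc k)
      (fun j => b' (R - 1 - j) + fm mm K (R - 1 - j)) (by
        intro k hk
        by_cases hkK : k ∈ K
        · simp only [if_pos hkK]
          exact ⟨by omega, Nat.zero_le _⟩
        · simp only [if_neg hkK]
          exact hp1 k ((mem_union.1 hk).resolve_left hkK)) (by
        intro j hj
        rw [sum_union hKor, add_comm]
        apply add_le_add
        · unfold fm
          apply sum_le_sum
          intro k hk
          rw [if_pos hk, if_pos hk, pat_last hj]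
        · refine (hp2 j hj).trans (le_of_eq ?_)
          apply sum_congr rfl
          intro k hk
          have hkK : k ∉ K := fun h => (disjoint_left.1 hKor) h hk
          rw [if_neg hkK, if_neg hkK])
    have hcong : rowsD R (fun y => (fun j => b' (R - 1 - j) + fm mm K (R - 1 - j)) (R - 1 - y)) =
        rowsD R (fun y => b' y + fm mm K y) := by
      apply rowsD_congr
      intro y hy
      show b' (R - 1 - (R - 1 - y)) + fm mm K (R - 1 - (R - 1 - y)) = _
      rw [show R - 1 - (R - 1 - y) = y by omega]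
    rw [hcong] at hF
    exact hF
  obtain ⟨e3, i3, he3, hi3⟩ := enum2 sE
  have hB : Inj E (rows mm sE) := by
    apply inj_relabel e3 _ _ _ hEi
    · intro c hc
      rw [mem_range] at hc
      exact (he3 c (by omega)).1
    · intro c hc c' hc' hee
      rw [mem_range] at hc hc'
      rw [← (he3 c (by omega)).2, ← (he3 c' (by omega)).2, hee]
    · intro c hc
      rw [mem_range] at hc
      exact (hsEm _ (he3 c (by omega)).1).2
  have hG := Inj.glue' (w := (0, 1)) (c' := R) hA hB (by
    intro d hd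
    rw [mem_rowsD] at hd
    simp only [wt]; omega) (by
    intro d hd
    have := hE d hd
    simp only [wt]; omega) (by
    apply rows_disj
    rw [disjoint_left]
    intro k hk hk2
    rcases mem_union.1 hk with hk | hk
    · exact (disjoint_left.1 hKs) hk (hsEm _ hk2).1
    · rcases mem_union.1 hk with hk | hk
      · exact (hothm _ hk).2 (hsEm _ hk2).2
      · exact (hrestm _ hk).2.2 hk2)
  rw [← rows_union] at hG
  refine hG.mono subset_rfl (rows_mono ?_)
  intro k hk
  rw [mem_union]
  rcases mem_union.1 hk with hk | hk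
  · rcases mem_union.1 hk with hk | hk
    · exact Or.inl hk
    · right
      rcases mem_union.1 hk with hk | hk
      · exact (hothm _ hk).1
      · exact (hrestm _ hk).1
  · exact Or.inr (hsEm _ hk).1

end Helper18.Np
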