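import Mathlib
import Pool.Agent.Helper18.Np.Med
import Pool.Agent.Helper18.CuspFinish

/-!
The profile theorem with points of medium multiplicity.
-/

set_option autoImplicit false
set_option linter.unusedSectionVars false

namespace Helper18.Np

open Finset Pool.Agent.Lead.Sh
open Pool.Agent.Helper43.Ah (pat ch2_pos two_ch2 rowsD mem_rowsD card_rowsD rowsD_congr
  rows_congr pigeon choose_mono subtotal)
open Helper18.Cusp (GoodFor)

/-- the data of the profile theorem for the multiplicity `μ` -/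
def Dat (m q μ : ℕ) (D : Finset (ℕ × ℕ)) (H : ℕ → ℕ) (K : Finset ℕ) (mm : ℕ → ℕ) : Prop :=
  ∃ (R n : ℕ) (E : Finset (ℕ × ℕ)), D = rowsD R (fun y => H y + fm mm K y) ∪ E ∧
    (∀ d ∈ E, R ≤ d.2) ∧ E.card = n * (μ + 1).choose 2 ∧
    Inj E (rows (fun _ => μ) (range n)) ∧ 2 * m < R ∧ (m + 1).choose 2 ≤ R ∧
    (∀ k ∈ K, mm k ≤ R) ∧ (∀ y < R, 1 ≤ H y) ∧
    (∀ y, y + 1 < R → (m - 1) * (H (y + 1) + 2 * m) + 1 ≤ m * H y) ∧
    (∀ y, y + 1 < R → H (y + 1) + 1 ≤ H y + q) ∧ (∀ y, y + 1 < R → H y + 1 ≤ H (y + 1) + q) ∧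
    (∀ y < 2 * m, 9 * m ^ 3 + 3 * q * m ^ 2 + 1 ≤ H y) ∧
    m * (E.card + ∑ y ∈ range (2 * m), (H y + 1)) + (m + 1).choose 2 +
      ∑ k ∈ K, (mm k + 1).choose 2 ≤ D.card

theorem Dat.congr {m q μ : ℕ} {D : Finset (ℕ × ℕ)} {H : ℕ → ℕ} {K : Finset ℕ} {mm mm' : ℕ → ℕ}
    (h : Dat m q μ D H K mm) (he : ∀ k ∈ K, mm k = mm' k) : Dat m q μ D H K mm' := by
  obtain ⟨R, n, E, h1, h2, h3, h4, h5, h6, h7, h8, h9, h10, h11, h12, h13⟩ := h
  refine ⟨R, n, E, ?_, h2, h3, h4, h5, h6, fun k hk => by rw [← he k hk]; exact h7 k hk, h8, h9,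
    h10, h11, h12, ?_⟩
  · rw [h1]
    congr 1
    apply rowsD_congr
    intro y _
    congr 1
    exact sum_congr rfl (fun k hk => by rw [he k hk])
  · rw [← sum_congr rfl (fun k hk => by rw [he k hk] : ∀ k ∈ K, (mm k + 1).choose 2 =
      (mm' k + 1).choose 2)]
    exact h13

theorem profile_med (m q : ℕ) (hm : 1 ≤ m) (D : Finset (ℕ × ℕ)) (H : ℕ → ℕ) (K s0 : Finset ℕ)
    (mm : ℕ → ℕ) (hKs0 : Disjoint K s0) (hmm0 : ∀ k ∈ s0, mm k ≤ m)
    (h : ∀ μ, 1 ≤ μ → μ ≤ m → Dat m q μ D H K mm) : GoodFor D mm (K ∪ s0) := by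
  classical
  set s := s0.filter (fun k => 0 < mm k) with hs
  have hKs : Disjoint K s := hKs0.mono_right (filter_subset _ _)
  have hrows : rows mm (K ∪ s0) = rows mm (K ∪ s) := by
    ext r
    rw [mem_rows, mem_rows, hs, mem_union, mem_union, mem_filter]
    constructor
    · rintro ⟨a | a, b⟩
      · exact ⟨Or.inl a, b⟩
      · exact ⟨Or.inr ⟨a, by omega⟩, b⟩
    · rintro ⟨a | a, b⟩
      · exact ⟨Or.inl a, b⟩
      · exact ⟨Or.inr a.1, b⟩
  set CK := ∑ k ∈ K, (mm k + 1).choose 2 with hCK
  have hsum0 : ∑ k ∈ K ∪ s0, (mm k + 1).choose 2 = CK + ∑ k ∈ s, (mm k + 1).choose 2 := by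
    rw [sum_union hKs0, hs, sum_filter]
    congr 1
    apply sum_congr rfl
    intro k _
    split_ifs with h1
    · rfl
    · rw [show mm k = 0 by omega]; rfl
  rw [GoodFor, hrows, hsum0]
  have h1 : ∀ k ∈ s, 1 ≤ mm k := fun k hk => (mem_filter.1 hk).2
  have hmm : ∀ k ∈ s, mm k ≤ m := fun k hk => hmm0 k (mem_filter.1 hk).1
  have hCpos : 1 ≤ (m + 1).choose 2 := ch2_pos hm
  have hcardU : ∀ (R : ℕ) (b : ℕ → ℕ) (E : Finset (ℕ × ℕ)), (∀ d ∈ E, R ≤ d.2) →
      (rowsD R b ∪ E).card = ∑ y ∈ range R, b y + E.card := by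
    intro R b E hE
    rw [card_union_of_disjoint, card_rowsD]
    rw [disjoint_left]
    intro d hd hd2
    rw [mem_rowsD] at hd
    have := hE d hd2
    omega
  constructor
  · intro hT
    obtain ⟨s', hs', hT1, hT2⟩ := subtotal m (D.card - CK) hm mm s hmm (by omega)
    obtain ⟨δ, hδ⟩ := Nat.exists_eq_add_of_le hT1
    obtain ⟨μ, hμ, hμm, hpig⟩ := pigeon m hm s' mm (fun k hk => h1 k (hs' hk))
      (fun k hk => hmm k (hs' hk))
    obtain ⟨R, n, E, hD, hE, hEc, hEi, hR, hRC, hKR, hpos, hst, hH1, hH2, hH3, hbd⟩ := h μ hμ hμm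
    have hDc : D.card = ∑ y ∈ range R, H y + CK + E.card := by
      rw [hD, hcardU R _ E hE, sum_add_distrib, sum_fm mm K R hKR]
    have hδR : δ ≤ R := by omega
    set b' : ℕ → ℕ := fun y => if R - δ ≤ y then H y + 1 else H y with hb'
    have hb'1 : ∀ y, H y ≤ b' y ∧ b' y ≤ H y + 1 := by
      intro y; simp only [hb']; split_ifs <;> omega
    have hsb : ∑ y ∈ range R, b' y = ∑ y ∈ range R, H y + δ := by
      have : ∀ y ∈ range R, b' y = H y + (if R - δ ≤ y then 1 else 0) := by
        intro y _; simp only [hb']; split_ifs <;> omega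
      rw [sum_congr rfl this, sum_add_distrib, ← card_filter]
      congr 1
      have : (range R).filter (fun y => R - δ ≤ y) = Ico (R - δ) R := by
        ext y; rw [mem_filter, mem_range, mem_Ico]; omega
      rw [this, Nat.card_Ico]; omega
    have hInj := near_med m μ R n q b' E hμ hμm hE hEi s' K mm (hKs.mono_right hs')
      (fun k hk => h1 k (hs' hk)) (fun k hk => hmm k (hs' hk)) hR (by
        intro y hy
        have a1 := hst y hy
        have a2 := (hb'1 (y + 1)).2
        have a3 := (hb'1 y).1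
        refine le_trans ?_ (le_trans (Nat.le_of_succ_le a1) (Nat.mul_le_mul_left _ a3))
        apply Nat.mul_le_mul_left
        omega) (by
        intro y hy
        have a1 := hH1 y hy
        have a2 := (hb'1 (y + 1)).2
        have a3 := (hb'1 y).1
        omega) (by
        intro y hy
        have a1 := hH2 y hy
        have a2 := (hb'1 y).2
        have a3 := (hb'1 (y + 1)).1
        omega) (by
        intro y hy
        have a1 := hH3 y hy
        have a2 := (hb'1 y).1
        omega) (by
        rw [hδ, hDc, hsb, hEc]; omega) (by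
        have a1 : ∑ y ∈ range (2 * m), b' y ≤ ∑ y ∈ range (2 * m), (H y + 1) :=
          sum_le_sum (fun y _ => (hb'1 y).2)
        have a2 : m * (E.card + ∑ y ∈ range (2 * m), (H y + 1)) ≤
            m * ((s'.filter (fun k => mm k = μ)).card * (μ + 1).choose 2) := by omega
        have a3 := Nat.le_of_mul_le_mul_left a2 (by omega)
        rw [← hEc]
        omega)
    refine hInj.mono ?_ (rows_mono (union_subset_union_right hs'))
    rw [hD]
    apply union_subset_union_left
    intro d hd
    rw [mem_rowsD] at hd ⊢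
    refine ⟨hd.1, lt_of_lt_of_le hd.2 ?_⟩
    have := (hb'1 d.2).1
    omega
  · intro hT
    set C := (m + 1).choose 2 with hC
    set t := (D.card - (CK + ∑ k ∈ s, (mm k + 1).choose 2)) / C with ht
    set B := (K ∪ s).sup id + 1 with hB
    have hsB : ∀ k ∈ K ∪ s, k < B := by
      intro k hk
      have : k ≤ (K ∪ s).sup id := le_sup (f := id) hk
      omega
    set mp : ℕ → ℕ := fun k => if k < B then mm k else m with hmp
    set sp := s ∪ Ico B (B + t) with hsp
    have hdj : Disjoint s (Ico B (B + t)) := by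
      rw [disjoint_left]
      intro k hk hk2
      rw [mem_Ico] at hk2
      have := hsB k (mem_union_right _ hk)
      omega
    have hKsp : Disjoint K sp := by
      rw [hsp, disjoint_union_right]
      refine ⟨hKs, ?_⟩
      rw [disjoint_left]
      intro k hk hk2
      rw [mem_Ico] at hk2
      have := hsB k (mem_union_left _ hk)
      omega
    have hmpU : ∀ k ∈ K ∪ s, mm k = mp k := by
      intro k hk
      simp only [hmp]
      rw [if_pos (hsB k hk)]
    have hmps : ∀ k ∈ s, mm k = mp k := fun k hk => hmpU k (mem_union_right _ hk)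
    have hmpK : ∀ k ∈ K, mm k = mp k := fun k hk => hmpU k (mem_union_left _ hk)
    have hCK' : ∑ k ∈ K, (mp k + 1).choose 2 = CK :=
      (sum_congr rfl (fun k hk => by rw [hmpK k hk])).symm
    have hsump : ∑ k ∈ sp, (mp k + 1).choose 2 = ∑ k ∈ s, (mm k + 1).choose 2 + t * C := by
      rw [hsp, sum_union hdj]
      congr 1
      · apply sum_congr rfl
        intro k hk
        rw [hmps k hk]
      · rw [sum_congr rfl (g := fun _ => C)]
        · rw [sum_const, smul_eq_mul, Nat.card_Ico, Nat.add_sub_cancel_left]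
        · intro k hk
          rw [mem_Ico] at hk
          simp only [hmp]
          rw [if_neg (by omega)]
    have hdiv : t * C ≤ D.card - (CK + ∑ k ∈ s, (mm k + 1).choose 2) := Nat.div_mul_le_self _ _
    have hdiv2 : D.card - (CK + ∑ k ∈ s, (mm k + 1).choose 2) < t * C + C := by
      have := Nat.lt_div_mul_add (a := D.card - (CK + ∑ k ∈ s, (mm k + 1).choose 2)) (b := C)
        (by omega)
      exact this
    obtain ⟨δ, hδ⟩ := Nat.exists_eq_add_of_le
      (show CK + ∑ k ∈ sp, (mp k + 1).choose 2 ≤ D.card by omega)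
    have h1p : ∀ k ∈ sp, 1 ≤ mp k := by
      intro k hk
      rcases mem_union.1 hk with hk | hk
      · rw [← hmps k hk]; exact h1 k hk
      · rw [mem_Ico] at hk
        simp only [hmp]
        rw [if_neg (by omega)]; exact hm
    have hmmp : ∀ k ∈ sp, mp k ≤ m := by
      intro k hk
      rcases mem_union.1 hk with hk | hk
      · rw [← hmps k hk]; exact hmm k hk
      · rw [mem_Ico] at hk
        simp only [hmp]
        rw [if_neg (by omega)]
    obtain ⟨μ, hμ, hμm, hpig⟩ := pigeon m hm sp mp h1p hmmp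
    obtain ⟨R, n, E, hD, hE, hEc, hEi, hR, hRC, hKR, hpos, hst, hH1, hH2, hH3, hbd⟩ :=
      (h μ hμ hμm).congr hmpK
    rw [hCK'] at hbd
    have hDc : D.card = ∑ y ∈ range R, H y + CK + E.card := by
      rw [hD, hcardU R _ E hE, sum_add_distrib, sum_fm mp K R hKR, hCK']
    have hδC : δ < C := by omega
    have hδR : δ ≤ R := by omega
    set b' : ℕ → ℕ := fun y => if R - δ ≤ y then H y - 1 else H y with hb'
    have hb'1 : ∀ y, H y ≤ b' y + 1 ∧ b' y ≤ H y := by
      intro y; simp only [hb']; split_ifs <;> omega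
    have hsb : ∑ y ∈ range R, b' y + δ = ∑ y ∈ range R, H y := by
      have : ∀ y ∈ range R, H y = b' y + (if R - δ ≤ y then 1 else 0) := by
        intro y hy
        rw [mem_range] at hy
        have := hpos y hy
        simp only [hb']; split_ifs <;> omega
      rw [sum_congr rfl this, sum_add_distrib, ← card_filter]
      congr 1
      have : (range R).filter (fun y => R - δ ≤ y) = Ico (R - δ) R := by
        ext y; rw [mem_filter, mem_range, mem_Ico]; omega
      rw [this, Nat.card_Ico]; omega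
    have hInj := near_med m μ R n q b' E hμ hμm hE hEi sp K mp hKsp h1p hmmp hR (by
        intro y hy
        have a1 := hst y hy
        have a2 := hpos y (by omega)
        have a3 := hpos (y + 1) hy
        obtain ⟨p, rfl⟩ : ∃ p, m = p + 1 := ⟨m - 1, by omega⟩
        rw [Nat.add_sub_cancel] at a1 ⊢
        rw [show 2 * (p + 1) - 1 = 2 * p + 1 by omega]
        simp only [hb']
        split_ifs with c1 c2 c2
        · obtain ⟨u, hu⟩ : ∃ u, H y = u + 1 := ⟨H y - 1, by omega⟩
          obtain ⟨v, hv⟩ : ∃ v, H (y + 1) = v + 1 := ⟨H (y + 1) - 1, by omega⟩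
          rw [hu, hv] at a1 ⊢
          rw [Nat.add_sub_cancel, Nat.add_sub_cancel]
          nlinarith
        · obtain ⟨v, hv⟩ : ∃ v, H (y + 1) = v + 1 := ⟨H (y + 1) - 1, by omega⟩
          rw [hv] at a1 ⊢
          rw [Nat.add_sub_cancel]
          nlinarith
        · exfalso; omega
        · nlinarith) (by
        intro y hy
        have a1 := hH1 y hy
        have a2 := (hb'1 (y + 1)).2
        have a3 := (hb'1 y).1
        omega) (by
        intro y hy
        have a1 := hH2 y hy
        have a2 := (hb'1 y).2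
        have a3 := (hb'1 (y + 1)).1
        omega) (by
        intro y hy
        have a1 := hH3 y hy
        have a2 := (hb'1 y).1
        omega) (by
        rw [← hEc]; omega) (by
        have a1 : ∑ y ∈ range (2 * m), b' y ≤ ∑ y ∈ range (2 * m), (H y + 1) :=
          sum_le_sum (fun y _ => le_trans (hb'1 y).2 (Nat.le_succ _))
        have a2 : m * (E.card + ∑ y ∈ range (2 * m), (H y + 1)) ≤
            m * ((sp.filter (fun k => mp k = μ)).card * (μ + 1).choose 2) := by omega
        have a3 := Nat.le_of_mul_le_mul_left a2 (by omega)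
        rw [← hEc]
        omega)
    obtain ⟨P, hP⟩ := hInj
    have hInd : Ind (rowsD R (fun y => b' y + fm mp K y) ∪ E) (rows mp (K ∪ sp)) := ⟨P, hP.ind (by
      rw [card_rows, hcardU R _ E hE, sum_union hKsp, hCK', sum_add_distrib, sum_fm mp K R hKR,
        hCK']
      omega)⟩
    refine hInd.mono ?_ ?_
    · rw [hD]
      apply union_subset_union_left
      intro d hd
      rw [mem_rowsD] at hd ⊢
      refine ⟨hd.1, lt_of_lt_of_le hd.2 ?_⟩
      have := (hb'1 d.2).2
      omega
    · rw [rows_congr hmpU]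
      exact rows_mono (union_subset_union_right subset_union_left)

end Helper18.Np
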