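import Mathlib
import Pool.Agent.Helper18.Np.Prof
import Pool.Agent.Helper39.Ah.Shapes

/-!
Walls and corners, with points of medium multiplicity.
-/

set_option autoImplicit false
set_option linter.unusedSectionVars false

namespace Helper18.Np

open Finset Pool.Agent.Lead.Sh
open Pool.Agent.Helper43.Ah (pat ch2_pos two_ch2 rowsD mem_rowsD card_rowsD rowsD_congr)
open Pool.Agent.Helper39.Ah (choose_two_mul exists_K card_corn_le card_corn corn_inj cornD mem_cornD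
  H_low H_anti sum_ge sum_le_top)
open Helper18.Cusp (GoodFor)

section

variable {m W : ℕ} {L : ℕ → ℕ} {K : Finset ℕ} {mm : ℕ → ℕ}

theorem sum_take (a b : ℕ → ℕ) (Y : ℕ) (h : ∀ y < Y, b y ≤ a y) :
    ∑ y ∈ range Y, (a y - b y) + ∑ y ∈ range Y, b y = ∑ y ∈ range Y, a y := by
  rw [← sum_add_distrib]
  apply sum_congr rfl
  intro y hy
  rw [mem_range] at hy
  have := h y hy
  omega

/-- slopes and local conditions of the rows without the medium points -/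
theorem loc_med {R : ℕ} (hm : 1 ≤ m) (hK9 : K.card ≤ 9)
    (hanti : ∀ y, y + 1 < R → L (y + 1) ≤ L y)
    (hmin : ∀ y < R, fm mm K y + 2 * m ^ 2 + 1 ≤ L y ∧
      (fm mm K y = 0 ∨ fm mm K y + 2 * m ^ 2 + 18 * m ≤ L y)) (y : ℕ) (hy : y + 1 < R) :
    (m - 1) * ((L (y + 1) - fm mm K (y + 1)) + 2 * m) + 1 ≤ m * (L y - fm mm K y) := by
  obtain ⟨p, rfl⟩ : ∃ p, m = p + 1 := ⟨m - 1, by omega⟩
  rw [Nat.add_sub_cancel]
  have h1 := hanti y hy
  have h2 := hmin y (by omega)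
  have h3 := fm_drop mm K y
  have h4 : fm mm K (y + 1) ≤ fm mm K y := fm_anti mm K (Nat.le_succ y)
  obtain ⟨h5, h6⟩ := h2
  obtain ⟨u, hu⟩ : ∃ u, L y - fm mm K y = u := ⟨_, rfl⟩
  rw [hu]
  rcases h6 with h6 | h6
  · have h7 : L (y + 1) - fm mm K (y + 1) ≤ u := by omega
    have h8 : 2 * (p + 1) ^ 2 + 1 ≤ u := by omega
    have h9 : p * ((L (y + 1) - fm mm K (y + 1)) + 2 * (p + 1)) ≤ p * (u + 2 * (p + 1)) :=
      Nat.mul_le_mul_left _ (by omega)
    nlinarith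
  · have h7 : L (y + 1) - fm mm K (y + 1) ≤ u + 9 := by omega
    have h8 : 2 * (p + 1) ^ 2 + 18 * (p + 1) ≤ u := by omega
    have h9 : p * ((L (y + 1) - fm mm K (y + 1)) + 2 * (p + 1)) ≤ p * (u + 9 + 2 * (p + 1)) :=
      Nat.mul_le_mul_left _ (by omega)
    nlinarith

end

/-- **Wall with medium points.** -/
theorem med_wall0 (m W : ℕ) (L : ℕ → ℕ) (K s0 : Finset ℕ) (mm : ℕ → ℕ) (hm : 1 ≤ m)
    (hKs : Disjoint K s0) (hmm0 : ∀ k ∈ s0, mm k ≤ m) (hK9 : K.card ≤ 9)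
    (hanti : ∀ y, y + 1 < W → L (y + 1) ≤ L y)
    (hdrop : ∀ y, y + 1 < W → L y ≤ L (y + 1) + 2) (hW : 3 * m ^ 2 ≤ W)
    (hKW : ∀ k ∈ K, mm k ≤ W)
    (hmin : ∀ y < W, fm mm K y + 2 * m ^ 2 + 1 ≤ L y ∧
      (fm mm K y = 0 ∨ fm mm K y + 2 * m ^ 2 + 18 * m ≤ L y))
    (hbig : ∀ y < 2 * m, fm mm K y + 9 * m ^ 3 + 30 * m ^ 2 + 1 ≤ L y)
    (hsum : 2 * (m ^ 2 * L 0) + 3 * m ^ 2 + ∑ k ∈ K, (mm k + 1).choose 2 ≤
      ∑ y ∈ range W, L y) :
    GoodFor (rowsD W L) mm (K ∪ s0) := by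
  have c1 := choose_two_mul m
  have p1 : m ≤ m ^ 2 := by nlinarith
  have hle : ∀ y < W, fm mm K y ≤ L y := fun y hy => by have := (hmin y hy).1; omega
  apply profile_med m 10 hm _ (fun y => L y - fm mm K y) K s0 mm hKs hmm0
  intro μ hμ hμm
  refine ⟨W, 0, ∅, ?_, by simp, by simp, inj_empty _, by omega, by nlinarith, hKW, ?_,
    loc_med hm hK9 hanti hmin, ?_, ?_, ?_, ?_⟩
  · rw [union_empty]
    apply rowsD_congr
    intro y hy
    have := hle y hy
    beta_reduce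
    omega
  · intro y hy
    have := (hmin y hy).1
    beta_reduce
    omega
  · intro y hy
    have h1 := hanti y hy
    have h2 := fm_drop mm K y
    have h3 := hle y (by omega)
    beta_reduce
    omega
  · intro y hy
    have h1 := hdrop y hy
    have h2 : fm mm K (y + 1) ≤ fm mm K y := fm_anti mm K (Nat.le_succ y)
    have h3 := hle (y + 1) (by omega)
    beta_reduce
    omega
  · intro y hy
    have := hbig y hy
    beta_reduce
    omega
  · rw [card_empty, zero_add, card_rowsD]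
    have h1 := sum_le_top hanti (2 * m) (by omega)
    have h8 : ∑ y ∈ range (2 * m), (L y - fm mm K y + 1) ≤ ∑ y ∈ range (2 * m), (L y + 1) :=
      sum_le_sum (fun y _ => by omega)
    have h4 : m * ∑ y ∈ range (2 * m), (L y - fm mm K y + 1) ≤ m * (2 * m * (L 0 + 1)) :=
      Nat.mul_le_mul le_rfl (h8.trans h1)
    have h5 : (m + 1).choose 2 ≤ m ^ 2 := by nlinarith
    have e1 : m * (2 * m * (L 0 + 1)) = 2 * (m ^ 2 * L 0) + 2 * m ^ 2 := by ring
    rw [e1] at h4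
    beta_reduce
    omega

theorem med_wall (m W : ℕ) (L : ℕ → ℕ) (K s0 : Finset ℕ) (mm : ℕ → ℕ) (hm : 1 ≤ m)
    (hKs : Disjoint K s0) (hmm0 : ∀ k ∈ s0, mm k ≤ m) (hK9 : K.card ≤ 9)
    (hanti : ∀ y, y + 1 < W → L (y + 1) ≤ L y)
    (hdrop : ∀ y, y + 1 < W → L y ≤ L (y + 1) + 2) (hW : 3 * m ^ 2 ≤ W)
    (hKW : ∀ k ∈ K, mm k ≤ W)
    (hmin : ∀ y < W, fm mm K y + 2 * m ^ 2 + 1 ≤ L y ∧
      (fm mm K y = 0 ∨ fm mm K y + 2 * m ^ 2 + 18 * m ≤ L y))
    (hbig : ∀ y < 2 * m, fm mm K y + 9 * m ^ 3 + 30 * m ^ 2 + 1 ≤ L y)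
    (hsum : 18 * m ^ 4 + 5 * m ^ 2 + ∑ y ∈ range (3 * m ^ 2), fm mm K y ≤ m ^ 2 * L 0) :
    GoodFor (rowsD W L) mm (K ∪ s0) := by
  have hle : ∀ y < W, fm mm K y ≤ L y := fun y hy => by have := (hmin y hy).1; omega
  apply med_wall0 m W L K s0 mm hm hKs hmm0 hK9 hanti hdrop hW hKW hmin hbig
  have h2 := sum_ge hdrop (3 * m ^ 2) hW
  have h6 := sum_take L (fm mm K) W hle
  rw [sum_fm mm K W hKW] at h6
  have h7 := sum_take L (fm mm K) (3 * m ^ 2) (fun y hy => hle y (by omega))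
  have h3 : ∑ y ∈ range (3 * m ^ 2), (L y - fm mm K y) ≤ ∑ y ∈ range W, (L y - fm mm K y) :=
    sum_le_sum_of_subset (range_subset_range.2 hW)
  have e2 : 3 * m ^ 2 * L 0 = 3 * (m ^ 2 * L 0) := by ring
  have e3 : 2 * (3 * m ^ 2) * (3 * m ^ 2) = 18 * m ^ 4 := by ring
  rw [e2, e3] at h2
  omega

/-- **Corner with medium points.** -/
theorem med_corner (m W k : ℕ) (L : ℕ → ℕ) (K s0 : Finset ℕ) (mm : ℕ → ℕ) (hm : 1 ≤ m)
    (hKs : Disjoint K s0) (hmm0 : ∀ k ∈ s0, mm k ≤ m) (hK9 : K.card ≤ 9)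
    (hk : 1 ≤ k) (hk9 : k ≤ 9)
    (hanti : ∀ y, y + 1 < W → L (y + 1) ≤ L y)
    (hdrop : ∀ y, y + 1 < W → L y ≤ L (y + 1) + 2)
    (hKW : ∀ i ∈ K, mm i + k * (4 * m ^ 2) ≤ W) (hWk : k * (4 * m ^ 2) ≤ W)
    (hc : ∀ y < W, W ≤ y + k * (4 * m ^ 2) → L y = (W - y + k - 1) / k)
    (hmin : ∀ y < W, y + k * (4 * m ^ 2) < W → fm mm K y + 2 * m ^ 2 + 1 ≤ L y ∧
      (fm mm K y = 0 ∨ fm mm K y + 2 * m ^ 2 + 18 * m ≤ L y))
    (h0 : 50 * m ^ 3 ≤ L 0)
    (hbig : ∀ y < 2 * m, fm mm K y + 9 * m ^ 3 + 30 * m ^ 2 + 1 ≤ L y)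
    (hsum : 50 * m ^ 6 + 72 * m ^ 5 + 3 * m ^ 2 + 2 * (m ^ 2 * L 0) +
      ∑ i ∈ K, (mm i + 1).choose 2 ≤ 5 * (m ^ 3 * L 0)) :
    GoodFor (rowsD W L) mm (K ∪ s0) := by
  have c1 := choose_two_mul m
  have p1 : m ≤ m ^ 2 := by nlinarith
  have p2 : m ^ 2 ≤ m ^ 3 := Nat.pow_le_pow_right hm (by norm_num)
  have h5 : (m + 1).choose 2 ≤ m ^ 2 := by nlinarith
  apply profile_med m 10 hm _ (fun y => L y - fm mm K y) K s0 mm hKs hmm0
  intro μ hμ hμm
  obtain ⟨K', hK1, hK2⟩ := exists_K m μ hμ hμm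
  have hcl := fun y0 => card_corn_le μ k K' y0 m hK2
  have hcc := fun y0 => card_corn μ k K' y0
  have hci := fun y0 => corn_inj μ k K' y0 0 hμ hk
  set A := K' * (μ * (μ + 1)) with hA
  have hm2 : 1 ≤ m ^ 2 := Nat.one_le_pow _ _ hm
  have hkA : k * A + k ≤ k * (4 * m ^ 2) := by
    calc k * A + k = k * (A + 1) := by ring
      _ ≤ _ := Nat.mul_le_mul le_rfl hK2
  have hkA1 : 1 ≤ k * A := Nat.mul_pos hk (by omega)
  obtain ⟨R, hR⟩ : ∃ R, W = R + k * A := ⟨W - k * A, by omega⟩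
  have hHR : L R = A := by
    rw [hc R (by omega) (by omega), hR]
    rw [show R + k * A - R + k - 1 = (k - 1) + k * A by omega, Nat.add_mul_div_left _ _ hk,
      Nat.div_eq_of_lt (by omega), zero_add]
  have hR0 := H_low hdrop R (by omega)
  have hRbig : 23 * m ^ 3 ≤ R := by omega
  have hHR1 : L (R - 1) = A + 1 := by
    rw [hc (R - 1) (by omega) (by omega), hR]
    rw [show R + k * A - (R - 1) + k - 1 = k * (A + 1) by
      rw [Nat.mul_add, mul_one]; omega, Nat.mul_div_cancel_left _ hk]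
  have hmin' : ∀ y < R, fm mm K y + 2 * m ^ 2 + 1 ≤ L y ∧
      (fm mm K y = 0 ∨ fm mm K y + 2 * m ^ 2 + 18 * m ≤ L y) := by
    intro y hy
    rcases Nat.lt_or_ge (y + k * (4 * m ^ 2)) W with h1 | h1
    · exact hmin y (by omega) h1
    · have h2 : fm mm K y = 0 := fm_zero_of (fun i hi => by have := hKW i hi; omega)
      have := H_anti hanti y (R - 1) (by omega) (by omega)
      rw [h2]
      exact ⟨by omega, Or.inl rfl⟩
  have hle : ∀ y < R, fm mm K y ≤ L y := fun y hy => by have := (hmin' y hy).1; omega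
  have hunion : rowsD W L = rowsD R L ∪ cornD k A R := by
    ext d
    rw [mem_union, mem_rowsD, mem_rowsD, mem_cornD]
    constructor
    · rintro ⟨h1, h2⟩
      by_cases h3 : d.2 < R
      · left; exact ⟨h3, h2⟩
      · right
        rw [hc d.2 h1 (by omega)] at h2
        refine ⟨by omega, ?_⟩
        have h4 : k * (d.1 + 1) ≤ W - d.2 + k - 1 := by
          calc k * (d.1 + 1) ≤ k * ((W - d.2 + k - 1) / k) := Nat.mul_le_mul le_rfl h2
            _ ≤ _ := Nat.mul_div_le _ _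
        rw [Nat.mul_add, mul_one] at h4
        omega
    · rintro (⟨h1, h2⟩ | ⟨h1, h2⟩)
      · exact ⟨by omega, h2⟩
      · have h3 : d.2 < W := by omega
        refine ⟨h3, ?_⟩
        rw [hc d.2 h3 (by omega)]
        rw [Nat.lt_iff_add_one_le, Nat.le_div_iff_mul_le hk]
        rw [add_mul, one_mul, mul_comm d.1 k]
        omega
  have hKR : ∀ i ∈ K, mm i ≤ R := fun i hi => by have := hKW i hi; omega
  refine ⟨R, k * (K' * (A + 1)), cornD k A R, ?_, ?_, hcc R, ?_, by omega, by omega, hKR, ?_,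
    loc_med hm hK9 (fun y hy => hanti y (by omega)) hmin', ?_, ?_, ?_, ?_⟩
  · rw [hunion]
    congr 1
    apply rowsD_congr
    intro y hy
    have := hle y hy
    beta_reduce
    omega
  · intro d hd
    rw [mem_cornD] at hd
    exact hd.1
  · have := hci R
    rw [zero_add, ← range_eq_Ico] at this
    exact this
  · intro y hy
    have := (hmin' y hy).1
    beta_reduce
    omega
  · intro y hy
    have h1 := hanti y (by omega)
    have h2 := fm_drop mm K y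
    have h3 := hle y (by omega)
    beta_reduce
    omega
  · intro y hy
    have h1 := hdrop y (by omega)
    have h2 : fm mm K (y + 1) ≤ fm mm K y := fm_anti mm K (Nat.le_succ y)
    have h3 := hle (y + 1) hy
    beta_reduce
    omega
  · intro y hy
    have := hbig y hy
    beta_reduce
    omega
  · have hdis : Disjoint (rowsD R L) (cornD k A R) := by
      rw [disjoint_left]
      intro d hd hd'
      rw [mem_rowsD] at hd
      rw [mem_cornD] at hd'
      omega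
    rw [hunion, card_union_of_disjoint hdis, card_rowsD]
    have h1 := sum_le_top hanti (2 * m) (by omega)
    have h2 := sum_ge hdrop (5 * m ^ 3) (by omega)
    have h3 : ∑ y ∈ range (5 * m ^ 3), L y ≤ ∑ y ∈ range R, L y :=
      sum_le_sum_of_subset (range_subset_range.2 (by omega))
    have h8 : ∑ y ∈ range (2 * m), (L y - fm mm K y + 1) ≤ ∑ y ∈ range (2 * m), (L y + 1) :=
      sum_le_sum (fun y _ => by omega)
    have h4 : m * ∑ y ∈ range (2 * m), (L y - fm mm K y + 1) ≤ m * (2 * m * (L 0 + 1)) :=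
      Nat.mul_le_mul le_rfl (h8.trans h1)
    have h9 := hcl R
    have h10 : k * (16 * m ^ 4) ≤ 9 * (16 * m ^ 4) := Nat.mul_le_mul hk9 le_rfl
    have h11 : m * (cornD k A R).card ≤ m * (72 * m ^ 4) := Nat.mul_le_mul le_rfl (by omega)
    have e1 : m * (2 * m * (L 0 + 1)) = 2 * (m ^ 2 * L 0) + 2 * m ^ 2 := by ring
    have e2 : 5 * m ^ 3 * L 0 = 5 * (m ^ 3 * L 0) := by ring
    have e3 : 2 * (5 * m ^ 3) * (5 * m ^ 3) = 50 * m ^ 6 := by ring
    have e5 : m * (72 * m ^ 4) = 72 * m ^ 5 := by ring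
    rw [e2, e3] at h2
    rw [e1] at h4
    rw [e5] at h11
    rw [mul_add]
    beta_reduce
    omega

end Helper18.Np
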