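import Mathlib
import Pool.Agent.Helper18.Np.Prof

/-!
Thin strips: the frequent multiplicities fill full rectangles.
-/

set_option autoImplicit false
set_option linter.unusedSectionVars false

namespace Helper18.Np

open Finset Pool.Agent.Lead.Sh
open Pool.Agent.Helper43.Ah (pat ch2_pos two_ch2 rowsD mem_rowsD card_rowsD rowsD_congr
  rows_congr pigeon choose_mono subtotal)
open Helper18.Cusp (GoodFor)

/-- points of one multiplicity fill a rectangle, a bounded number is left -/
theorem rect (ν W : ℕ) (mm : ℕ → ℕ) (A : Finset ℕ) (hν : 1 ≤ ν) (hW : 2 * ν < W)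
    (hA : ∀ k ∈ A, mm k = ν) :
    ∃ r ⊆ A, ∃ h : ℕ, ∃ st zc : ℕ → ℕ, (∀ k ∈ r, st k + zc k < W ∧ zc k ≤ mm k) ∧
      (∀ j < W, h ≤ ∑ k ∈ r, pat W (mm k) (st k) (zc k) j) ∧
      W * h = r.card * (ν + 1).choose 2 ∧ (A \ r).card ≤ 18 * ν * W := by
  classical
  by_cases hc : 18 * ν ≤ A.card / W
  · set q := A.card / W with hq
    have hWpos : 0 < W := by omega
    have hqW : q * W ≤ A.card := Nat.div_mul_le_self _ _
    obtain ⟨r, hrA, hrc⟩ := exists_subset_card_eq hqW
    have hmod : A.card < q * W + W := Nat.lt_div_mul_add hWpos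
    have htot : (∅ : Finset ℕ).sum (fun k => (mm k + 1).choose 2) + r.card * (ν + 1).choose 2 =
        ∑ j ∈ range W, (fun _ => q * (ν + 1).choose 2) j := by
      rw [sum_empty, zero_add, sum_const, card_range, smul_eq_mul, hrc]
      ring
    have hC := two_ch2 ν
    have hbig : 9 * ν ^ 3 ≤ q * (ν + 1).choose 2 := by
      have h1 : 18 * ν * (ν + 1).choose 2 ≤ q * (ν + 1).choose 2 := Nat.mul_le_mul_right _ hc
      refine le_trans ?_ h1
      have h2 : 18 * ν * (ν + 1).choose 2 = 9 * ν * (2 * (ν + 1).choose 2) := by ring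
      rw [h2, hC]
      have h3 : 9 * ν * (ν * (ν + 1)) = 9 * ν ^ 3 + 9 * ν ^ 2 := by ring
      rw [h3]
      exact Nat.le_add_right _ _
    have h3 : ν ^ 2 ≤ ν ^ 3 := Nat.pow_le_pow_right hν (by norm_num)
    have h4 : ν ≤ ν ^ 2 := by nlinarith
    obtain ⟨st, zc, h1, h2⟩ := plan_set ν ν W 0 mm (fun _ => q * (ν + 1).choose 2) ∅ r
      (disjoint_empty_left _) hν le_rfl (by simp) (by simp) (fun k hk => hA k (hrA hk)) hW (by
        intro j _
        beta_reduce
        obtain ⟨p, rfl⟩ : ∃ p, ν = p + 1 := ⟨ν - 1, by omega⟩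
        rw [Nat.add_sub_cancel, show 2 * (p + 1) - 1 = 2 * p + 1 by omega]
        set u := q * (p + 1 + 1).choose 2
        nlinarith) (by intro j _; exact le_rfl) (by intro j _; exact le_rfl) (by
        intro j _ _
        beta_reduce
        omega) (by rw [sum_empty]; exact Or.inl (Nat.zero_le _)) htot
    rw [empty_union] at h1 h2
    refine ⟨r, hrA, q * (ν + 1).choose 2, st, zc, h1, h2, ?_, ?_⟩
    · rw [hrc]; ring
    · rw [card_sdiff_of_subset hrA, hrc]
      have : 1 * W ≤ 18 * ν * W := Nat.mul_le_mul_right _ (by omega)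
      omega
  · refine ⟨∅, empty_subset _, 0, fun _ => 0, fun _ => 0, by simp, by simp, by simp, ?_⟩
    rw [sdiff_empty]
    push Not at hc
    have hWpos : 0 < W := by omega
    have := (Nat.div_lt_iff_lt_mul hWpos).1 hc
    exact this.le

/-- **Exact totals on thin strips.** -/
theorem strip_exact_med (M W V q : ℕ) (hM : 1 ≤ M) (hW : 2 * M < W) (b : ℕ → ℕ)
    (hb1 : ∀ j, j + 1 < W → b j ≤ b (j + 1) + q) (hb2 : ∀ j, j + 1 < W → b (j + 1) ≤ b j + q)
    (hV : ∀ i < W, ∀ j < W, b i ≤ b j + V) (hq : 9 * M ^ 3 + 3 * q * M ^ 2 ≤ 54 * M ^ 4)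
    (hT : ∀ j < W, M * (54 * M ^ 4 + V) ≤ b j)
    (s K : Finset ℕ) (mm : ℕ → ℕ) (hKs : Disjoint K s)
    (h1 : ∀ k ∈ s, 1 ≤ mm k) (hmm : ∀ k ∈ s, mm k ≤ M)
    (htot : ∑ k ∈ s, (mm k + 1).choose 2 = ∑ j ∈ range W, b j) :
    Inj (rowsD W (fun y => b (W - 1 - y) + fm mm K y)) (rows mm (K ∪ s)) := by
  classical
  have hWpos : 0 < W := by omega
  obtain ⟨μ, hμ, hμM, hpig⟩ := pigeon M hM s mm h1 hmm
  set cl : ℕ → Finset ℕ := fun ν => s.filter (fun k => mm k = ν) with hcl
  have hclm : ∀ ν, ∀ k ∈ cl ν, k ∈ s ∧ mm k = ν := fun ν k hk => mem_filter.1 hk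
  have hex : ∀ ν, ∃ (r : Finset ℕ) (h : ℕ) (st zc : ℕ → ℕ), r ⊆ cl ν ∧ (1 ≤ ν → ν ≤ M →
      (∀ k ∈ r, st k + zc k < W ∧ zc k ≤ mm k) ∧
      (∀ j < W, h ≤ ∑ k ∈ r, pat W (mm k) (st k) (zc k) j) ∧
      W * h = r.card * (ν + 1).choose 2 ∧ (cl ν \ r).card ≤ 18 * ν * W) := by
    intro ν
    by_cases hν : 1 ≤ ν ∧ ν ≤ M
    · obtain ⟨r, hr, h, st, zc, hh⟩ := rect ν W mm (cl ν) hν.1 (by omega)
        (fun k hk => (hclm ν k hk).2)
      exact ⟨r, h, st, zc, hr, fun _ _ => hh⟩
    · exact ⟨∅, 0, 0, 0, empty_subset _, fun a b => absurd ⟨a, b⟩ hν⟩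
  choose r h st zc hrcl hst using hex
  set I := (Icc 1 M).erase μ with hI
  have hIm : ∀ ν ∈ I, 1 ≤ ν ∧ ν ≤ M ∧ ν ≠ μ := by
    intro ν hν
    rw [hI, mem_erase, mem_Icc] at hν
    exact ⟨hν.2.1, hν.2.2, hν.1⟩
  have hμI : μ ∈ Icc 1 M := mem_Icc.2 ⟨hμ, hμM⟩
  have hIcard : I.card ≤ M := by
    rw [hI, card_erase_of_mem hμI, Nat.card_Icc]; omega
  -- the three parts
  set Sr := s.filter (fun k => mm k ≠ μ ∧ k ∈ r (mm k)) with hSr
  set O := s.filter (fun k => mm k ≠ μ ∧ k ∉ r (mm k)) with hO
  set P := cl μ with hP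
  have hrs : ∀ ν, ∀ k ∈ r ν, k ∈ s ∧ mm k = ν := fun ν k hk => hclm ν k (hrcl ν hk)
  have hSrsum : ∀ F : ℕ → ℕ, ∑ k ∈ Sr, F k = ∑ ν ∈ I, ∑ k ∈ r ν, F k := by
    intro F
    rw [← sum_fiberwise_of_maps_to (s := Sr) (g := mm) (t := I)]
    · apply sum_congr rfl
      intro ν hν
      apply sum_congr _ (fun _ _ => rfl)
      obtain ⟨-, -, a3⟩ := hIm ν hν
      ext k
      rw [mem_filter, hSr, mem_filter]
      constructor
      · rintro ⟨⟨-, -, h3⟩, h4⟩
        rw [h4] at h3; exact h3
      · intro hk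
        obtain ⟨a4, a5⟩ := hrs ν k hk
        exact ⟨⟨a4, by rw [a5]; exact a3, by rw [a5]; exact hk⟩, a5⟩
    · intro k hk
      rw [hSr, mem_filter] at hk
      rw [hI, mem_erase, mem_Icc]
      exact ⟨hk.2.1, h1 k hk.1, hmm k hk.1⟩
  have hOsum : ∀ F : ℕ → ℕ, ∑ k ∈ O, F k = ∑ ν ∈ I, ∑ k ∈ cl ν \ r ν, F k := by
    intro F
    rw [← sum_fiberwise_of_maps_to (s := O) (g := mm) (t := I)]
    · apply sum_congr rfl
      intro ν hν
      apply sum_congr _ (fun _ _ => rfl)
      obtain ⟨-, -, a3⟩ := hIm ν hν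
      ext k
      rw [mem_filter, hO, mem_filter, mem_sdiff]
      constructor
      · rintro ⟨⟨h2, -, h3⟩, h4⟩
        rw [h4] at h3
        exact ⟨mem_filter.2 ⟨h2, h4⟩, h3⟩
      · rintro ⟨h2, h3⟩
        obtain ⟨a4, a5⟩ := hclm ν k h2
        exact ⟨⟨a4, by rw [a5]; exact a3, by rw [a5]; exact h3⟩, a5⟩
    · intro k hk
      rw [hO, mem_filter] at hk
      rw [hI, mem_erase, mem_Icc]
      exact ⟨hk.2.1, h1 k hk.1, hmm k hk.1⟩
  have hPm : ∀ k ∈ P, mm k = μ := fun k hk => (hclm μ k hk).2
  have hdSO : Disjoint Sr (O ∪ P) := by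
    rw [disjoint_left]
    intro k hk hk2
    rw [hSr, mem_filter] at hk
    rcases mem_union.1 hk2 with h2 | h2
    · rw [hO, mem_filter] at h2
      exact h2.2.2 hk.2.2
    · exact hk.2.1 (hPm k h2)
  have hdOP : Disjoint O P := by
    rw [disjoint_left]
    intro k hk hk2
    rw [hO, mem_filter] at hk
    exact hk.2.1 (hPm k hk2)
  have hs : s = Sr ∪ (O ∪ P) := by
    ext k
    rw [mem_union, mem_union, hSr, hO, hP, mem_filter, mem_filter, hcl, mem_filter]
    tauto
  have hsumS : ∀ F : ℕ → ℕ, ∑ k ∈ s, F k = ∑ k ∈ Sr, F k + (∑ k ∈ O, F k + ∑ k ∈ P, F k) := by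
    intro F
    conv_lhs => rw [hs]
    rw [sum_union hdSO, sum_union hdOP]
  set G := ∑ ν ∈ I, h ν with hG
  have hSrC : ∑ k ∈ Sr, (mm k + 1).choose 2 = W * G := by
    rw [hSrsum, hG, mul_sum]
    apply sum_congr rfl
    intro ν hν
    obtain ⟨a1, a2, a3⟩ := hIm ν hν
    rw [(hst ν a1 a2).2.2.1, sum_congr rfl (g := fun _ => (ν + 1).choose 2)]
    · rw [sum_const, smul_eq_mul]
    · intro k hk
      rw [(hrs ν k hk).2]
  have hPC : ∑ k ∈ P, (mm k + 1).choose 2 = P.card * (μ + 1).choose 2 := by
    rw [sum_congr rfl (g := fun _ => (μ + 1).choose 2)]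
    · rw [sum_const, smul_eq_mul]
    · intro k hk
      rw [hPm k hk]
  have hOC : ∑ k ∈ O, (mm k + 1).choose 2 ≤ 18 * W * M ^ 4 := by
    rw [hOsum]
    calc ∑ ν ∈ I, ∑ k ∈ cl ν \ r ν, (mm k + 1).choose 2 ≤ ∑ ν ∈ I, 18 * W * M ^ 3 := by
          apply sum_le_sum
          intro ν hν
          obtain ⟨a1, a2, a3⟩ := hIm ν hν
          rw [sum_congr rfl (g := fun _ => (ν + 1).choose 2)]
          · rw [sum_const, smul_eq_mul]
            have h2 := (hst ν a1 a2).2.2.2
            have h3 : (ν + 1).choose 2 ≤ M * M := by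
              have h4 := two_ch2 ν
              nlinarith
            calc (cl ν \ r ν).card * (ν + 1).choose 2 ≤ 18 * ν * W * (M * M) :=
                  Nat.mul_le_mul h2 h3
              _ ≤ 18 * M * W * (M * M) := by
                  apply Nat.mul_le_mul_right
                  apply Nat.mul_le_mul_right
                  omega
              _ = 18 * W * M ^ 3 := by ring
          · intro k hk
            rw [(hclm ν k (mem_sdiff.1 hk).1).2]
      _ = I.card * (18 * W * M ^ 3) := by rw [sum_const, smul_eq_mul]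
      _ ≤ M * (18 * W * M ^ 3) := Nat.mul_le_mul_right _ hIcard
      _ = 18 * W * M ^ 4 := by ring
  have htot2 : ∑ j ∈ range W, b j = W * G + (∑ k ∈ O, (mm k + 1).choose 2 +
      P.card * (μ + 1).choose 2) := by
    rw [← htot, hsumS, hSrC, hPC]
  have hlow : ∀ j < W, 54 * M ^ 4 + G ≤ b j := by
    intro j hj
    have e1 : ∑ i ∈ range W, b i ≤ ∑ i ∈ range W, (b j + V) :=
      sum_le_sum (fun i hi => hV i (mem_range.1 hi) j hj)
    rw [sum_const, card_range, smul_eq_mul] at e1
    have e2 : ∑ i ∈ range W, M * (54 * M ^ 4 + V) ≤ ∑ i ∈ range W, b i :=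
      sum_le_sum (fun i hi => hT i (mem_range.1 hi))
    rw [sum_const, card_range, smul_eq_mul, ← htot] at e2
    have e3 : M * (W * (54 * M ^ 4 + V)) ≤ M * (P.card * (μ + 1).choose 2) := by
      calc M * (W * (54 * M ^ 4 + V)) = W * (M * (54 * M ^ 4 + V)) := by ring
        _ ≤ _ := le_trans e2 hpig
    have e4 := Nat.le_of_mul_le_mul_left e3 (by omega)
    have e5 : W * (54 * M ^ 4 + G) ≤ W * b j := by
      have : W * (54 * M ^ 4 + V) + W * G ≤ W * (b j + V) := by omega
      rw [Nat.mul_add, Nat.mul_add] at this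
      rw [Nat.mul_add]
      omega
    exact Nat.le_of_mul_le_mul_left e5 hWpos
  have hOν : ∑ k ∈ O, mm k ≤ 18 * W * M ^ 3 := by
    rw [hOsum]
    calc ∑ ν ∈ I, ∑ k ∈ cl ν \ r ν, mm k ≤ ∑ ν ∈ I, 18 * W * M ^ 2 := by
          apply sum_le_sum
          intro ν hν
          obtain ⟨a1, a2, a3⟩ := hIm ν hν
          rw [sum_congr rfl (g := fun _ => ν)]
          · rw [sum_const, smul_eq_mul]
            have h2 := (hst ν a1 a2).2.2.2
            calc (cl ν \ r ν).card * ν ≤ 18 * ν * W * M := Nat.mul_le_mul h2 a2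
              _ ≤ 18 * M * W * M := by
                  apply Nat.mul_le_mul_right
                  apply Nat.mul_le_mul_right
                  omega
              _ = 18 * W * M ^ 2 := by ring
          · intro k hk
            exact (hclm ν k (mem_sdiff.1 hk).1).2
      _ = I.card * (18 * W * M ^ 2) := by rw [sum_const, smul_eq_mul]
      _ ≤ M * (18 * W * M ^ 2) := Nat.mul_le_mul_right _ hIcard
      _ = 18 * W * M ^ 3 := by ring
  obtain ⟨sto, zco, hp1, hp2⟩ := plan_set M μ W q mm (fun j => b j - G) O P hdOP hμ hμM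
    (fun k hk => h1 k (mem_filter.1 hk).1) (fun k hk => hmm k (mem_filter.1 hk).1) hPm hW (by
      intro j hj
      have c1 := hb1 j hj
      have c2 := hlow (j + 1) hj
      have c3 := hlow j (by omega)
      beta_reduce
      obtain ⟨p, rfl⟩ : ∃ p, M = p + 1 := ⟨M - 1, by omega⟩
      rw [Nat.add_sub_cancel, show 2 * (p + 1) - 1 = 2 * p + 1 by omega]
      obtain ⟨u, hu⟩ : ∃ u, b (j + 1) - G = u := ⟨_, rfl⟩
      have c4 : b j - G ≤ u + q := by omega
      have c5 : 54 * (p + 1) ^ 4 ≤ u := by omega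
      rw [hu]
      have c6 : p * (b j - G + (2 * p + 1)) ≤ p * (u + q + (2 * p + 1)) :=
        Nat.mul_le_mul_left _ (by omega)
      have c7 : p * q ≤ 3 * q * (p + 1) ^ 2 := by
        have : 3 * q * (p + 1) ^ 2 = p * q + (3 * (q * (p * p)) + 5 * (p * q) + 3 * q) := by ring
        rw [this]
        exact Nat.le_add_right _ _
      have c8 : p * (2 * p + 1) ≤ 9 * (p + 1) ^ 3 := by
        have : (p + 1) ^ 3 = p * p * p + 3 * (p * p) + 3 * p + 1 := by ring
        nlinarith
      calc p * (b j - G + (2 * p + 1)) ≤ p * (u + q + (2 * p + 1)) := c6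
        _ = p * u + (p * q + p * (2 * p + 1)) := by ring
        _ ≤ p * u + u := by omega
        _ = (p + 1) * u := by ring) (by
      intro j hj
      have := hb1 j hj
      beta_reduce
      omega) (by
      intro j hj
      have := hb2 j hj
      beta_reduce
      omega) (by
      intro j hj _
      have := hlow j hj
      beta_reduce
      omega) (by
      rcases Nat.lt_or_ge W (3 * M) with c3M | c3M
      · right
        have c1 := hlow 0 (by omega)
        have c2 : 18 * W * M ^ 3 ≤ 18 * (3 * M) * M ^ 3 :=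
          Nat.mul_le_mul_right _ (Nat.mul_le_mul_left _ c3M.le)
        have e1 : 18 * (3 * M) * M ^ 3 = 54 * M ^ 4 := by ring
        beta_reduce
        omega
      left
      refine hOC.trans ?_
      calc 18 * W * M ^ 4 ≤ (W - 2 * M) * (54 * M ^ 4) := by
            obtain ⟨t, ht⟩ : ∃ t, W = 3 * M + t := ⟨W - 3 * M, by omega⟩
            rw [show W - 2 * M = M + t by omega, ht]
            have e1 : 18 * (3 * M + t) * M ^ 4 = 18 * M ^ 4 * (3 * M + t) := by ring
            have e2 : (M + t) * (54 * M ^ 4) = 18 * M ^ 4 * (3 * M + 3 * t) := by ring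
            rw [e1, e2]
            apply Nat.mul_le_mul_left
            omega
        _ = ∑ j ∈ range (W - 2 * M), 54 * M ^ 4 := by rw [sum_const, card_range, smul_eq_mul]
        _ ≤ _ := by
            apply sum_le_sum
            intro j hj
            rw [mem_range] at hj
            have := hlow j (by omega)
            omega) (by
      have e1 : ∑ j ∈ range W, (b j - G) + ∑ j ∈ range W, G = ∑ j ∈ range W, b j := by
        rw [← sum_add_distrib]
        apply sum_congr rfl
        intro j hj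
        rw [mem_range] at hj
        have := hlow j hj
        omega
      rw [sum_const, card_range, smul_eq_mul] at e1
      beta_reduce
      omega)
  have hKSr : ∀ k ∈ K, k ∉ s := fun k hk hk2 => (disjoint_left.1 hKs) hk hk2
  have hF := fill_set W mm (K ∪ s) (fun k => if k ∈ K then W - 1 else
      if k ∈ Sr then st (mm k) k else sto k) (fun k => if k ∈ K then 0 else
      if k ∈ Sr then zc (mm k) k else zco k) (fun j => b j + fm mm K (W - 1 - j)) (by
        intro k hk
        by_cases hkK : k ∈ K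
        · simp only [if_pos hkK]
          exact ⟨by omega, Nat.zero_le _⟩
        · simp only [if_neg hkK]
          have hks := (mem_union.1 hk).resolve_left hkK
          by_cases hkS : k ∈ Sr
          · simp only [if_pos hkS]
            rw [hSr, mem_filter] at hkS
            exact (hst (mm k) (h1 k hks) (hmm k hks)).1 k hkS.2.2
          · simp only [if_neg hkS]
            apply hp1
            rw [hs] at hks
            exact (mem_union.1 hks).resolve_left hkS) (by
        intro j hj
        rw [sum_union hKs, hsumS]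
        have e1 : fm mm K (W - 1 - j) ≤ ∑ k ∈ K, pat W (mm k)
            ((fun k => if k ∈ K then W - 1 else if k ∈ Sr then st (mm k) k else sto k) k)
            ((fun k => if k ∈ K then 0 else if k ∈ Sr then zc (mm k) k else zco k) k) j := by
          unfold fm
          apply sum_le_sum
          intro k hk
          beta_reduce
          rw [if_pos hk, if_pos hk, pat_last hj]
        have e2 : G ≤ ∑ k ∈ Sr, pat W (mm k)
            ((fun k => if k ∈ K then W - 1 else if k ∈ Sr then st (mm k) k else sto k) k)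
            ((fun k => if k ∈ K then 0 else if k ∈ Sr then zc (mm k) k else zco k) k) j := by
          have e3 : ∀ k ∈ Sr, pat W (mm k)
            ((fun k => if k ∈ K then W - 1 else if k ∈ Sr then st (mm k) k else sto k) k)
            ((fun k => if k ∈ K then 0 else if k ∈ Sr then zc (mm k) k else zco k) k) j =
              pat W (mm k) (st (mm k) k) (zc (mm k) k) j := by
            intro k hk
            have hks : k ∈ s := (mem_filter.1 hk).1
            have hkK : k ∉ K := fun h => hKSr k h hks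
            beta_reduce
            rw [if_neg hkK, if_neg hkK, if_pos hk, if_pos hk]
          rw [sum_congr rfl e3, hSrsum, hG]
          apply sum_le_sum
          intro ν hν
          obtain ⟨a1, a2, a3⟩ := hIm ν hν
          refine ((hst ν a1 a2).2.1 j hj).trans (le_of_eq ?_)
          apply sum_congr rfl
          intro k hk
          rw [(hrs ν k hk).2]
        have e4 : b j - G ≤ ∑ k ∈ O, pat W (mm k)
            ((fun k => if k ∈ K then W - 1 else if k ∈ Sr then st (mm k) k else sto k) k)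
            ((fun k => if k ∈ K then 0 else if k ∈ Sr then zc (mm k) k else zco k) k) j +
            ∑ k ∈ P, pat W (mm k)
            ((fun k => if k ∈ K then W - 1 else if k ∈ Sr then st (mm k) k else sto k) k)
            ((fun k => if k ∈ K then 0 else if k ∈ Sr then zc (mm k) k else zco k) k) j := by
          rw [← sum_union hdOP]
          refine (hp2 j hj).trans (le_of_eq ?_)
          apply sum_congr rfl
          intro k hk
          have hks : k ∈ s := by rw [hs]; exact mem_union_right _ hk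
          have hkK : k ∉ K := fun h => hKSr k h hks
          have hkS : k ∉ Sr := fun h => (disjoint_left.1 hdSO) h hk
          beta_reduce
          rw [if_neg hkK, if_neg hkK, if_neg hkS, if_neg hkS]
        have e5 := hlow j hj
        beta_reduce at e1 e2 e4 ⊢
        omega)
  have hcong : rowsD W (fun y => (fun j => b j + fm mm K (W - 1 - j)) (W - 1 - y)) =
      rowsD W (fun y => b (W - 1 - y) + fm mm K y) := by
    apply rowsD_congr
    intro y hy
    show b (W - 1 - y) + fm mm K (W - 1 - (W - 1 - y)) = _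
    rw [show W - 1 - (W - 1 - y) = y by omega]
  rw [hcong] at hF
  exact hF

end Helper18.Np
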