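import Mathlib
import Pool.Agent.Helper18.Np.Strip

/-!
Thin strips with points of medium multiplicity.
-/

set_option autoImplicit false
set_option linter.unusedSectionVars false

namespace Helper18.Np

open Finset Pool.Agent.Lead.Sh
open Pool.Agent.Helper43.Ah (pat ch2_pos two_ch2 rowsD mem_rowsD card_rowsD rowsD_congr
  rows_congr pigeon choose_mono subtotal)
open Helper18.Cusp (GoodFor)

/-- **Thin strips.** -/
theorem med_strip (M W V q : ℕ) (L : ℕ → ℕ) (K s0 : Finset ℕ) (mm : ℕ → ℕ) (hM : 1 ≤ M)
    (hKs0 : Disjoint K s0) (hmm0 : ∀ k ∈ s0, mm k ≤ M) (hW : 2 * M < W)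
    (hKW : ∀ k ∈ K, mm k ≤ W) (hle : ∀ y < W, fm mm K y ≤ L y)
    (hs1 : ∀ y, y + 1 < W → L (y + 1) - fm mm K (y + 1) ≤ L y - fm mm K y + q)
    (hs2 : ∀ y, y + 1 < W → L y - fm mm K y ≤ L (y + 1) - fm mm K (y + 1) + q)
    (hV : ∀ i < W, ∀ j < W, L i - fm mm K i ≤ L j - fm mm K j + V)
    (hq : 9 * M ^ 3 + 3 * (q + M ^ 2) * M ^ 2 ≤ 54 * M ^ 4)
    (hT : ∀ y < W, M * (54 * M ^ 4 + (V + M ^ 2)) ≤ L y - fm mm K y) :
    GoodFor (rowsD W L) mm (K ∪ s0) := by
  classical
  set s := s0.filter (fun k => 0 < mm k) with hs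
  have hKs : Disjoint K s := hKs0.mono_right (filter_subset _ _)
  have hrows : rows mm (K ∪ s0) = rows mm (K ∪ s) := by
    ext r
    rw [mem_rows, mem_rows, hs, mem_union, mem_union, mem_filter]
    constructor
    · rintro ⟨a | a, b⟩
      · exact ⟨Or.inl a, b⟩
      · exact ⟨Or.inr ⟨a, by omega⟩, b⟩
    · rintro ⟨a | a, b⟩
      · exact ⟨Or.inl a, b⟩
      · exact ⟨Or.inr a.1, b⟩
  set CK := ∑ k ∈ K, (mm k + 1).choose 2 with hCK
  have hsum0 : ∑ k ∈ K ∪ s0, (mm k + 1).choose 2 = CK + ∑ k ∈ s, (mm k + 1).choose 2 := by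
    rw [sum_union hKs0, hs, sum_filter]
    congr 1
    apply sum_congr rfl
    intro k _
    split_ifs with h1
    · rfl
    · rw [show mm k = 0 by omega]; rfl
  have h1 : ∀ k ∈ s, 1 ≤ mm k := fun k hk => (mem_filter.1 hk).2
  have hmm : ∀ k ∈ s, mm k ≤ M := fun k hk => hmm0 k (mem_filter.1 hk).1
  set H : ℕ → ℕ := fun y => L y - fm mm K y with hH
  have hLH : ∀ y < W, L y = H y + fm mm K y := by
    intro y hy
    have := hle y hy
    simp only [hH]; omega
  set T := ∑ y ∈ range W, H y with hTdef
  have hcard : (rowsD W L).card = T + CK := by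
    rw [card_rowsD, sum_congr rfl (fun y hy => hLH y (mem_range.1 hy)), sum_add_distrib,
      sum_fm mm K W hKW]
  rw [GoodFor, hrows, hsum0, hcard]
  have hC2 : (M + 1).choose 2 ≤ M ^ 2 := by
    have := two_ch2 M
    nlinarith
  have hWpos : 0 < W := by omega
  have hrefl : ∑ j ∈ range W, H (W - 1 - j) = T := sum_range_reflect H W
  constructor
  · intro hT1
    obtain ⟨s', hs', hT2, hT3⟩ := subtotal M T hM mm s hmm (by omega)
    obtain ⟨e, he⟩ := Nat.exists_eq_add_of_le hT2
    have heM : e ≤ M ^ 2 := by omega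
    set b : ℕ → ℕ := fun j => H (W - 1 - j) + (if j = 0 then e else 0) with hb
    have hb' : ∀ j, H (W - 1 - j) ≤ b j ∧ b j ≤ H (W - 1 - j) + e := by
      intro j; simp only [hb]; split_ifs <;> omega
    have hsb : ∑ j ∈ range W, b j = T + e := by
      simp only [hb]
      rw [sum_add_distrib, hrefl, sum_ite_eq' (range W) 0 (fun _ => e),
        if_pos (mem_range.2 (by omega))]
    have hI := strip_exact_med M W (V + M ^ 2) (q + M ^ 2) hM hW b (by
      intro j hj
      have a1 := (hb' j).2
      have a2 := (hb' (j + 1)).1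
      have a3 := hs1 (W - 1 - (j + 1)) (by omega)
      rw [show W - 1 - (j + 1) + 1 = W - 1 - j by omega] at a3
      change H (W - 1 - j) ≤ H (W - 1 - (j + 1)) + q at a3
      omega) (by
      intro j hj
      have a1 := (hb' (j + 1)).2
      have a2 := (hb' j).1
      have a3 := hs2 (W - 1 - (j + 1)) (by omega)
      rw [show W - 1 - (j + 1) + 1 = W - 1 - j by omega] at a3
      change H (W - 1 - (j + 1)) ≤ H (W - 1 - j) + q at a3
      omega) (by
      intro i hi j hj
      have a1 := (hb' i).2
      have a2 := (hb' j).1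
      have a3 : H (W - 1 - i) ≤ H (W - 1 - j) + V := hV _ (by omega) _ (by omega)
      omega) hq (by
      intro j hj
      exact le_trans (hT (W - 1 - j) (by omega)) (hb' j).1) s' K mm (hKs.mono_right hs')
      (fun k hk => h1 k (hs' hk)) (fun k hk => hmm k (hs' hk)) (by rw [he, hsb])
    refine hI.mono ?_ (rows_mono (union_subset_union_right hs'))
    intro d hd
    rw [mem_rowsD] at hd ⊢
    refine ⟨hd.1, lt_of_lt_of_le hd.2 ?_⟩
    rw [hLH _ hd.1]
    have a1 := (hb' (W - 1 - d.2)).1
    rw [show W - 1 - (W - 1 - d.2) = d.2 by omega] at a1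
    omega
  · intro hT1
    obtain ⟨e, he⟩ := Nat.exists_eq_add_of_le (show ∑ k ∈ s, (mm k + 1).choose 2 ≤ T by omega)
    set B := (K ∪ s).sup id + 1 with hB
    have hsB : ∀ k ∈ K ∪ s, k < B := by
      intro k hk
      have : k ≤ (K ∪ s).sup id := le_sup (f := id) hk
      omega
    set mp : ℕ → ℕ := fun k => if k < B then mm k else 1 with hmp
    set sp := s ∪ Ico B (B + e) with hsp
    have hdj : Disjoint s (Ico B (B + e)) := by
      rw [disjoint_left]
      intro k hk hk2
      rw [mem_Ico] at hk2
      have := hsB k (mem_union_right _ hk)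
      omega
    have hKsp : Disjoint K sp := by
      rw [hsp, disjoint_union_right]
      refine ⟨hKs, ?_⟩
      rw [disjoint_left]
      intro k hk hk2
      rw [mem_Ico] at hk2
      have := hsB k (mem_union_left _ hk)
      omega
    have hmpU : ∀ k ∈ K ∪ s, mm k = mp k := by
      intro k hk
      simp only [hmp]
      rw [if_pos (hsB k hk)]
    have hmps : ∀ k ∈ s, mm k = mp k := fun k hk => hmpU k (mem_union_right _ hk)
    have hmpK : ∀ k ∈ K, mm k = mp k := fun k hk => hmpU k (mem_union_left _ hk)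
    have hCK' : ∑ k ∈ K, (mp k + 1).choose 2 = CK :=
      (sum_congr rfl (fun k hk => by rw [hmpK k hk])).symm
    have hfm : ∀ y, fm mp K y = fm mm K y := fun y => by
      unfold fm
      exact sum_congr rfl (fun k hk => by rw [hmpK k hk])
    have hsump : ∑ k ∈ sp, (mp k + 1).choose 2 = ∑ k ∈ s, (mm k + 1).choose 2 + e := by
      rw [hsp, sum_union hdj]
      congr 1
      · apply sum_congr rfl
        intro k hk
        rw [hmps k hk]
      · rw [sum_congr rfl (g := fun _ => 1)]
        · rw [sum_const, smul_eq_mul, Nat.card_Ico, Nat.add_sub_cancel_left, mul_one]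
        · intro k hk
          rw [mem_Ico] at hk
          simp only [hmp]
          rw [if_neg (by omega)]
          rfl
    have hI := strip_exact_med M W (V + M ^ 2) (q + M ^ 2) hM hW (fun j => H (W - 1 - j)) (by
      intro j hj
      have a3 := hs1 (W - 1 - (j + 1)) (by omega)
      rw [show W - 1 - (j + 1) + 1 = W - 1 - j by omega] at a3
      change H (W - 1 - j) ≤ H (W - 1 - (j + 1)) + q at a3
      beta_reduce
      omega) (by
      intro j hj
      have a3 := hs2 (W - 1 - (j + 1)) (by omega)
      rw [show W - 1 - (j + 1) + 1 = W - 1 - j by omega] at a3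
      change H (W - 1 - (j + 1)) ≤ H (W - 1 - j) + q at a3
      beta_reduce
      omega) (by
      intro i hi j hj
      have a3 : H (W - 1 - i) ≤ H (W - 1 - j) + V := hV _ (by omega) _ (by omega)
      beta_reduce
      omega) hq (by
      intro j hj
      exact hT (W - 1 - j) (by omega)) sp K mp hKsp (by
      intro k hk
      rcases mem_union.1 hk with hk | hk
      · rw [← hmps k hk]; exact h1 k hk
      · rw [mem_Ico] at hk
        simp only [hmp]
        rw [if_neg (by omega)]) (by
      intro k hk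
      rcases mem_union.1 hk with hk | hk
      · rw [← hmps k hk]; exact hmm k hk
      · rw [mem_Ico] at hk
        simp only [hmp]
        rw [if_neg (by omega)]; exact hM) (by rw [hsump, hrefl, he])
    have hcong : rowsD W (fun y => (fun j => H (W - 1 - j)) (W - 1 - y) + fm mp K y) =
        rowsD W L := by
      apply rowsD_congr
      intro y hy
      show H (W - 1 - (W - 1 - y)) + fm mp K y = L y
      rw [show W - 1 - (W - 1 - y) = y by omega, hfm, hLH y hy]
    rw [hcong] at hI
    obtain ⟨P, hP⟩ := hI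
    have hInd : Ind (rowsD W L) (rows mp (K ∪ sp)) := ⟨P, hP.ind (by
      rw [card_rows, hcard, sum_union hKsp, hCK', hsump]
      omega)⟩
    refine hInd.mono subset_rfl ?_
    rw [rows_congr hmpU]
    exact rows_mono (union_subset_union_right subset_union_left)

end Helper18.Np
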