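import Mathlib
import Pool.Agent.Helper18.Np.Shape
import Pool.Agent.Helper18.Np.StripG
import Pool.Agent.Helper18.Tw.Pen

/-!
The cases of the polynomial theorem.
-/

set_option autoImplicit false

open Module

noncomputable section

namespace Helper18.Np

open Helper18.Shgh Helper18.Cusp Helper18.Slab
open Pool.Agent.Lead.Sh (Inj Ind rows mem_rows)
open Pool.Agent.Helper43.Ah (rowsD mem_rowsD two_ch2)
open Pool.Agent.Helper39.Ah (good_wall H_low H_anti)

theorem Ico_split {j s : ℕ} (hj : j ≤ 9) (hs : 9 ≤ s) :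
    Finset.Ico j 9 ∪ Finset.Ico 9 s = Finset.Ico j s :=
  Finset.Ico_union_Ico_eq_Ico hj hs

theorem Ico_disj (j s : ℕ) : Disjoint (Finset.Ico j 9) (Finset.Ico 9 s) :=
  Finset.Ico_disjoint_Ico_consecutive j 9 s

theorem s_ge {s : ℕ} {m : ℕ → ℕ} (hs : ∀ i, s ≤ i → m i = 0) (h9 : 1 ≤ m 9) : 9 ≤ s := by
  by_contra hcon
  have := hs 9 (by omega)
  omega

theorem goodFor_congr {D D' : Finset (ℕ × ℕ)} {m : ℕ → ℕ} {S : Finset ℕ}
    (h : GoodFor D' m S) (hD : ∀ x, x ∈ D ↔ x ∈ D') : GoodFor D m S := by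
  have e : D = D' := Finset.ext hD
  rw [e]; exact h

/-- the region of one large point, in rows along the long direction -/
theorem long_finish {s : ℕ} {m : ℕ → ℕ} {d : ℕ} (hm : Antitone m) (hs : ∀ i, s ≤ i → m i = 0)
    (hd : m 0 + m 1 + m 2 ≤ d) (h9 : 1 ≤ m 9)
    (hG : GoodFor (rowsD (d - m 0 + 1) (fun y => d + 1 - y)) m
      (Finset.Ico 1 9 ∪ Finset.Ico 9 s)) : Concl s m d := by
  rw [Ico_split (by norm_num) (s_ge hs h9)] at hG
  apply toric_finish s m d 1 hm hs (by norm_num) (by omega)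
  rw [tr_lt (by norm_num), tr_ge le_rfl]
  apply GoodFor.swap
  apply goodFor_congr hG
  intro x
  rw [mem_rowsD, Finset.mem_image]
  constructor
  · rintro ⟨y, hy, rfl⟩
    rw [mem_DT2] at hy
    simp only [Prod.fst_swap, Prod.snd_swap]
    omega
  · intro hx
    refine ⟨x.swap, ?_, Prod.swap_swap x⟩
    rw [mem_DT2]
    simp only [Prod.fst_swap, Prod.snd_swap]
    omega

theorem fm_long {m : ℕ → ℕ} {d : ℕ} (hm : Antitone m) (hd : m 0 + m 1 + m 2 ≤ d) (y : ℕ) :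
    fm m (Finset.Ico 1 9) y ≤ 4 * (d - m 0) := by
  refine (fm_anti m _ (Nat.zero_le y)).trans ?_
  have h23 : m 3 ≤ m 2 := hm (by norm_num)
  have h24 : m 4 ≤ m 2 := hm (by norm_num)
  have h25 : m 5 ≤ m 2 := hm (by norm_num)
  have h26 : m 6 ≤ m 2 := hm (by norm_num)
  have h27 : m 7 ≤ m 2 := hm (by norm_num)
  have h28 : m 8 ≤ m 2 := hm (by norm_num)
  have h12 : m 2 ≤ m 1 := hm (by norm_num)
  have e : fm m (Finset.Ico 1 9) 0 = m 1 + m 2 + m 3 + m 4 + m 5 + m 6 + m 7 + m 8 := by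
    unfold fm
    simp only [Nat.sub_zero]
    rw [Finset.sum_Ico_eq_sum_range]
    simp only [Nat.reduceSub, Finset.sum_range_succ, Finset.sum_range_zero, zero_add]
  rw [e]
  omega

theorem pow_facts {M : ℕ} (hM : 2 ≤ M) : 2 * M ≤ M ^ 2 ∧ 2 * M ^ 2 ≤ M ^ 3 ∧ 2 * M ^ 3 ≤ M ^ 4 ∧
    2 * M ^ 4 ≤ M ^ 5 ∧ 2 * M ^ 5 ≤ M ^ 6 := by
  have h : ∀ a : ℕ, 2 * M ^ a ≤ M ^ (a + 1) := fun a => by
    rw [pow_succ, mul_comm]; exact Nat.mul_le_mul_left _ hM
  exact ⟨by simpa using h 1, h 2, h 3, h 4, h 5⟩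

/-- the thin strip -/
theorem case_strip {s : ℕ} {m : ℕ → ℕ} {d : ℕ} (hm : Antitone m) (hs : ∀ i, s ≤ i → m i = 0)
    (hd : m 0 + m 1 + m 2 ≤ d) (h9 : 2 ≤ m 9) (hδ : d < m 0 + 3 * m 9 ^ 2)
    (hN : 60 * m 9 ^ 5 ≤ d) : Concl s m d := by
  obtain ⟨p1, p2, p3, p4, p5⟩ := pow_facts h9
  have h19 : m 9 ≤ m 1 := hm (by norm_num)
  have h29 : m 9 ≤ m 2 := hm (by norm_num)
  obtain ⟨δ, hδe⟩ : ∃ δ, d = m 0 + δ := ⟨d - m 0, by omega⟩
  have hf : ∀ y, fm m (Finset.Ico 1 9) y ≤ 4 * δ := fun y => by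
    have := fm_long hm hd y
    rw [show d - m 0 = δ by omega] at this
    exact this
  have hcard : (Finset.Ico 1 9).card = 8 := by simp
  apply long_finish hm hs hd (by omega)
  rw [show d - m 0 = δ by omega]
  set M := m 9
  apply med_strip M (δ + 1) (15 * M ^ 2) 9 _ _ _ m (by omega) (Ico_disj 1 s)
  · intro k hk
    rw [Finset.mem_Ico] at hk
    exact hm hk.1
  · omega
  · intro k hk
    rw [Finset.mem_Ico] at hk
    have : m k ≤ m 1 := hm hk.1
    omega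
  · intro y hy
    have := hf y
    omega
  · intro y hy
    have h1 := fm_drop m (Finset.Ico 1 9) y
    have h2 := hf y
    have h3 := hf (y + 1)
    rw [hcard] at h1
    omega
  · intro y hy
    have h1 : fm m (Finset.Ico 1 9) (y + 1) ≤ fm m (Finset.Ico 1 9) y :=
      fm_anti m _ (Nat.le_succ y)
    have h2 := hf y
    omega
  · intro i hi j hj
    have h1 := hf j
    omega
  · have e1 : 3 * (9 + M ^ 2) * M ^ 2 = 27 * M ^ 2 + 3 * M ^ 4 := by ring
    rw [e1]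
    omega
  · intro y hy
    have h1 := hf y
    have e1 : M * (54 * M ^ 4 + (15 * M ^ 2 + M ^ 2)) = 54 * M ^ 5 + 16 * M ^ 3 := by ring
    rw [e1]
    omega

theorem sum_C_long {m : ℕ → ℕ} (hm : Antitone m) {δ : ℕ} (hd : m 1 + m 2 ≤ δ) :
    ∑ k ∈ Finset.Ico 1 9, (m k + 1).choose 2 ≤ δ * δ + 2 * δ := by
  have h12 : m 2 ≤ m 1 := hm (by norm_num)
  have h1 : ∑ k ∈ Finset.Ico 1 9, (m k + 1).choose 2 ≤
      (m 1 + 1).choose 2 + 7 * (m 2 + 1).choose 2 := by
    rw [Finset.sum_eq_sum_Ico_succ_bot (by norm_num)]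
    apply Nat.add_le_add_left
    refine (Finset.sum_le_card_nsmul _ _ ((m 2 + 1).choose 2)
      (fun k hk => Nat.choose_le_choose 2 ?_)).trans ?_
    · rw [Finset.mem_Ico] at hk
      have : m k ≤ m 2 := hm hk.1
      omega
    · rw [Nat.card_Ico, smul_eq_mul]
  have c1 := two_ch2 (m 1)
  have c2 := two_ch2 (m 2)
  nlinarith [Nat.mul_le_mul hd hd, Nat.mul_le_mul h12 h12, Nat.mul_le_mul_left (m 2) h12]

/-- the wall of one large point, rows along the long direction -/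
theorem case_long {s : ℕ} {m : ℕ → ℕ} {d : ℕ} (hm : Antitone m) (hs : ∀ i, s ≤ i → m i = 0)
    (hd : m 0 + m 1 + m 2 ≤ d) (h9 : 2 ≤ m 9) (hδ : m 0 + 3 * m 9 ^ 2 ≤ d)
    (hδ2 : d < m 0 + 100 * m 9 ^ 3) (hN : 610 * m 9 ^ 3 ≤ d) : Concl s m d := by
  obtain ⟨p1, p2, p3, p4, p5⟩ := pow_facts h9
  obtain ⟨δ, hδe⟩ : ∃ δ, d = m 0 + δ := ⟨d - m 0, by omega⟩
  have hf : ∀ y, fm m (Finset.Ico 1 9) y ≤ 4 * δ := fun y => by
    have := fm_long hm hd y
    rw [show d - m 0 = δ by omega] at this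
    exact this
  have hcard : (Finset.Ico 1 9).card = 8 := by simp
  apply long_finish hm hs hd (by omega)
  rw [show d - m 0 = δ by omega]
  set M := m 9
  apply med_wall0 M (δ + 1) _ _ _ m (by omega) (Ico_disj 1 s)
  · intro k hk
    rw [Finset.mem_Ico] at hk
    exact hm hk.1
  · rw [hcard]; norm_num
  · intro y hy
    omega
  · intro y hy
    omega
  · omega
  · intro k hk
    rw [Finset.mem_Ico] at hk
    have : m k ≤ m 1 := hm hk.1
    omega
  · intro y hy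
    have := hf y
    omega
  · intro y hy
    have := hf y
    omega
  · have h1 := sum_C_long hm (show m 1 + m 2 ≤ δ by omega)
    have h2 : (δ + 1) * (d + 1 - δ) ≤ ∑ y ∈ Finset.range (δ + 1), (d + 1 - y) := by
      calc (δ + 1) * (d + 1 - δ) = ∑ y ∈ Finset.range (δ + 1), (d + 1 - δ) := by
            rw [Finset.sum_const, Finset.card_range, smul_eq_mul]
        _ ≤ _ := Finset.sum_le_sum (fun y hy => by
            rw [Finset.mem_range] at hy
            omega)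
    refine le_trans ?_ h2
    refine (Nat.add_le_add_left h1 _).trans ?_
    obtain ⟨e, he⟩ : ∃ e, d = 6 * δ + 11 + e := ⟨d - (6 * δ + 11), by omega⟩
    rw [Nat.sub_zero, show d + 1 - δ = 5 * δ + 12 + e by omega,
      show d + 1 = 6 * δ + 12 + e by omega]
    have h3 : 3 * M ^ 2 ≤ δ := by omega
    have h4 : 3 * M ^ 2 * (6 * δ + 12 + e) ≤ δ * (6 * δ + 12 + e) := Nat.mul_le_mul_right _ h3
    nlinarith

end Helper18.Np
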