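import Mathlib
import Pool.Agent.Helper18.Np.Cases

/-!
The cases of the polynomial theorem with `j` large points.
-/

set_option autoImplicit false

open Module

noncomputable section

namespace Helper18.Np

open Helper18.Shgh Helper18.Cusp Helper18.Slab Helper18.Tw Helper18.Flag
open Pool.Agent.Lead.Sh (Inj Ind rows mem_rows)
open Pool.Agent.Helper43.Ah (rowsD mem_rowsD two_ch2)
open Pool.Agent.Helper39.Ah (good_wall H_low H_anti)

/-- medium points: multiplicities at most `4 M ^ 2` -/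
theorem fm_med {m : ℕ → ℕ} {j A : ℕ} (h : ∀ k ∈ Finset.Ico j 9, m k ≤ A) (y : ℕ) :
    fm m (Finset.Ico j 9) y ≤ 9 * A := by
  unfold fm
  calc ∑ k ∈ Finset.Ico j 9, (m k - y) ≤ ∑ k ∈ Finset.Ico j 9, A :=
        Finset.sum_le_sum (fun k hk => by have := h k hk; omega)
    _ = (9 - j) * A := by rw [Finset.sum_const, Nat.card_Ico, smul_eq_mul]
    _ ≤ 9 * A := Nat.mul_le_mul_right _ (by omega)

theorem fm_med_zero {m : ℕ → ℕ} {j A : ℕ} (h : ∀ k ∈ Finset.Ico j 9, m k ≤ A) {y : ℕ}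
    (hy : A ≤ y) : fm m (Finset.Ico j 9) y = 0 :=
  fm_zero_of (fun k hk => (h k hk).trans hy)

theorem sum_med {m : ℕ → ℕ} {j M : ℕ} (h : ∀ k ∈ Finset.Ico j 9, m k ≤ 4 * M ^ 2) :
    ∑ k ∈ Finset.Ico j 9, (m k + 1).choose 2 ≤ 72 * M ^ 4 + 18 * M ^ 2 := by
  have h1 : ∑ k ∈ Finset.Ico j 9, (m k + 1).choose 2 ≤ 9 * (4 * M ^ 2 + 1).choose 2 := by
    refine (Finset.sum_le_card_nsmul _ _ ((4 * M ^ 2 + 1).choose 2)
      (fun k hk => Nat.choose_le_choose 2 (by have := h k hk; omega))).trans ?_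
    rw [Nat.card_Ico, smul_eq_mul]
    exact Nat.mul_le_mul_right _ (show 9 - j ≤ 9 by omega)
  have h2 := two_ch2 (4 * M ^ 2)
  have h3 : 4 * M ^ 2 * (4 * M ^ 2 + 1) = 16 * M ^ 4 + 4 * M ^ 2 := by ring
  omega

theorem sum_fm_le (mm : ℕ → ℕ) (K : Finset ℕ) (Y : ℕ) :
    ∑ y ∈ Finset.range Y, fm mm K y ≤ ∑ k ∈ K, (mm k + 1).choose 2 := by
  unfold fm
  rw [Finset.sum_comm]
  apply Finset.sum_le_sum
  intro k _
  calc ∑ y ∈ Finset.range Y, (mm k - y) ≤ ∑ y ∈ Finset.range (Y + mm k), (mm k - y) := by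
        apply Finset.sum_le_sum_of_subset
        intro x hx
        rw [Finset.mem_range] at hx ⊢
        omega
    _ = (mm k + 1).choose 2 := sum_sub_all _ _ (by omega)

/-- the sum condition of a corner -/
theorem corner_sum {m : ℕ → ℕ} {j M L0 : ℕ} (hM : 2 ≤ M)
    (h : ∀ k ∈ Finset.Ico j 9, m k ≤ 4 * M ^ 2) (h0 : 50 * M ^ 3 ≤ L0) :
    50 * M ^ 6 + 72 * M ^ 5 + 3 * M ^ 2 + 2 * (M ^ 2 * L0) +
      ∑ i ∈ Finset.Ico j 9, (m i + 1).choose 2 ≤ 5 * (M ^ 3 * L0) := by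
  obtain ⟨p1, p2, p3, p4, p5⟩ := pow_facts hM
  have h1 := sum_med h
  have h2 : M ^ 3 * (50 * M ^ 3) ≤ M ^ 3 * L0 := Nat.mul_le_mul_left _ h0
  have h3 : M ^ 3 * (50 * M ^ 3) = 50 * M ^ 6 := by ring
  have h4 : 2 * M ^ 2 * L0 ≤ M ^ 3 * L0 := Nat.mul_le_mul_right _ p2
  have h5 : 2 * M ^ 2 * L0 = 2 * (M ^ 2 * L0) := by ring
  omega

theorem wall_sum {m : ℕ → ℕ} {j M L0 : ℕ} (hM : 2 ≤ M)
    (h : ∀ k ∈ Finset.Ico j 9, m k ≤ 4 * M ^ 2) (h0 : 50 * M ^ 3 ≤ L0) :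
    18 * M ^ 4 + 5 * M ^ 2 + ∑ y ∈ Finset.range (3 * M ^ 2), fm m (Finset.Ico j 9) y ≤
      M ^ 2 * L0 := by
  obtain ⟨p1, p2, p3, p4, p5⟩ := pow_facts hM
  have h1 := sum_med h
  have h1' := sum_fm_le m (Finset.Ico j 9) (3 * M ^ 2)
  have h2 : M ^ 2 * (50 * M ^ 3) ≤ M ^ 2 * L0 := Nat.mul_le_mul_left _ h0
  have h3 : M ^ 2 * (50 * M ^ 3) = 50 * M ^ 5 := by ring
  omega

/-- at most two large points -/
theorem case_toric {s : ℕ} {m : ℕ → ℕ} {d : ℕ} (hm : Antitone m) (hs : ∀ i, s ≤ i → m i = 0)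
    (hd : m 0 + m 1 + m 2 ≤ d) (h9 : 2 ≤ m 9) (hδ : m 0 + 100 * m 9 ^ 3 ≤ d) {j : ℕ} (hj : j ≤ 2)
    (hb : ∀ k ∈ Finset.Ico j 9, m k ≤ 4 * m 9 ^ 2) (hj1 : j = 2 → 4 * m 9 ^ 2 + 1 ≤ m 1) :
    Concl s m d := by
  obtain ⟨p1, p2, p3, p4, p5⟩ := pow_facts h9
  have hfm := fm_med hb
  have hf0 := fun y (hy : 4 * m 9 ^ 2 ≤ y) => fm_med_zero hb hy
  have hcard : (Finset.Ico j 9).card ≤ 9 := by rw [Nat.card_Ico]; omega
  have hsmall : ∀ k ∈ Finset.Ico 9 s, m k ≤ m 9 := fun k hk => hm (Finset.mem_Ico.1 hk).1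
  apply toric_finish s m d j hm hs hj (by omega)
  rw [← Ico_split (j := j) (s := s) (by omega) (s_ge hs (by omega))]
  have hdj := Ico_disj j s
  generalize hK : Finset.Ico j 9 = K at *
  set M := m 9
  interval_cases j
  · rw [tr_ge le_rfl, tr_ge (by norm_num)]
    refine goodFor_congr (D' := rowsD (d + 1) (fun y => d + 1 - y))
      (med_corner M (d + 1) 1 _ K _ m (by omega) hdj hsmall hcard le_rfl (by norm_num)
        ?_ ?_ ?_ ?_ ?_ ?_ ?_ ?_ ?_) ?_
    · intro y hy; omega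
    · intro y hy; omega
    · intro i hi; have := hb i hi; omega
    · omega
    · intro y hy _
      simp only [Nat.add_sub_cancel, Nat.div_one]
    · intro y hy hy2
      have h1 := hfm y
      rcases Nat.lt_or_ge y (4 * M ^ 2) with h2 | h2
      · exact ⟨by omega, Or.inr (by omega)⟩
      · rw [hf0 y h2]
        exact ⟨by omega, Or.inl rfl⟩
    · omega
    · intro y hy
      have h1 := hfm y
      omega
    · rw [← hK]; exact corner_sum h9 (by rw [hK]; exact hb) (by omega)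
    · intro x
      rw [mem_DT2, mem_rowsD]
      omega
  · rw [tr_lt (by norm_num), tr_ge le_rfl]
    refine goodFor_congr (D' := rowsD (d + 1) (fun y => min (d + 1 - y) (d + 1 - m 0)))
      (med_corner M (d + 1) 1 _ K _ m (by omega) hdj hsmall hcard le_rfl (by norm_num)
        ?_ ?_ ?_ ?_ ?_ ?_ ?_ ?_ ?_) ?_
    · intro y hy; omega
    · intro y hy; omega
    · intro i hi; have := hb i hi; omega
    · omega
    · intro y hy _
      simp only [Nat.add_sub_cancel, Nat.div_one]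
      omega
    · intro y hy hy2
      have h1 := hfm y
      rcases Nat.lt_or_ge y (4 * M ^ 2) with h2 | h2
      · exact ⟨by omega, Or.inr (by omega)⟩
      · rw [hf0 y h2]
        exact ⟨by omega, Or.inl rfl⟩
    · omega
    · intro y hy
      have h1 := hfm y
      omega
    · rw [← hK]; exact corner_sum h9 (by rw [hK]; exact hb) (by omega)
    · intro x
      rw [mem_DT2, mem_rowsD]
      omega
  · have hm1 := hj1 rfl
    have h10 : m 1 ≤ m 0 := hm (by norm_num)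
    rw [tr_lt (by norm_num), tr_lt (by norm_num)]
    refine goodFor_congr (D' := rowsD (d - m 1 + 1) (fun y => min (d + 1 - y) (d + 1 - m 0)))
      (med_wall M (d - m 1 + 1) _ K _ m (by omega) hdj hsmall hcard
        ?_ ?_ ?_ ?_ ?_ ?_ ?_) ?_
    · intro y hy; omega
    · intro y hy; omega
    · omega
    · intro i hi; have := hb i hi; omega
    · intro y hy
      have h1 := hfm y
      rcases Nat.lt_or_ge y (4 * M ^ 2) with h2 | h2
      · exact ⟨by omega, Or.inr (by omega)⟩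
      · rw [hf0 y h2]
        exact ⟨by omega, Or.inl rfl⟩
    · intro y hy
      have h1 := hfm y
      omega
    · rw [← hK]; exact wall_sum h9 (by rw [hK]; exact hb) (by omega)
    · intro x
      rw [mem_DT2, mem_rowsD]
      omega

/-- `j` large points, `3 ≤ j ≤ 8` -/
theorem case_cubic {s : ℕ} {m : ℕ → ℕ} {d : ℕ} (hm : Antitone m) (hs : ∀ i, s ≤ i → m i = 0)
    (hd : m 0 + m 1 + m 2 ≤ d) (h9 : 2 ≤ m 9) (hδ : m 0 + 100 * m 9 ^ 3 ≤ d)
    (hN : 150 * m 9 ^ 3 ≤ d) {j : ℕ} (hj3 : 3 ≤ j) (hj : j ≤ 8)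
    (hb : ∀ k ∈ Finset.Ico j 9, m k ≤ 4 * m 9 ^ 2) (hj1 : 4 * m 9 ^ 2 + 1 ≤ m (j - 1)) :
    Concl s m d := by
  obtain ⟨p1, p2, p3, p4, p5⟩ := pow_facts h9
  have hfm := fm_med hb
  have hf0 := fun y (hy : 4 * m 9 ^ 2 ≤ y) => fm_med_zero hb hy
  have hcard : (Finset.Ico j 9).card ≤ 9 := by rw [Nat.card_Ico]; omega
  have hsmall : ∀ k ∈ Finset.Ico 9 s, m k ≤ m 9 := fun k hk => hm (Finset.mem_Ico.1 hk).1
  have h01 : m 1 ≤ m 0 := hm (by norm_num)
  have h12 : m 2 ≤ m 1 := hm (by norm_num)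
  have h23 : m 3 ≤ m 2 := hm (by norm_num)
  have h24 : m 4 ≤ m 2 := hm (by norm_num)
  have h25 : m 5 ≤ m 2 := hm (by norm_num)
  have h26 : m 6 ≤ m 2 := hm (by norm_num)
  have h27 : m 7 ≤ m 2 := hm (by norm_num)
  have hsumj : 3 * ∑ i ∈ Finset.range j, m i ≤ 8 * d := by
    interval_cases j <;>
      simp only [Finset.sum_range_succ, Finset.sum_range_zero, zero_add] <;> omega
  obtain ⟨hsum, hR⟩ := red_tr hm hd hj3 (by omega) (by omega)
  apply cubic_finish s m d j hm hs (by omega) hR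
  apply GoodFor.swap
  have h2j : m (j - 1) ≤ m 2 := hm (by omega)
  have hlev := lev_red hR.ha hR.hd
  have e2 : tr m j 2 = m 2 := tr_lt (by omega)
  have e0 : tr m j 0 = m 0 := tr_lt (by omega)
  have hk : kap d (tr m j) = 3 * d - ∑ i ∈ Finset.range j, m i := by rw [kap, hsum]
  have hH0 : 50 * m 9 ^ 3 ≤ HS d (tr m j) 0 := by
    have := lt_HS_zero hR (b := 50 * m 9 ^ 3) (by rw [e0]; omega)
    omega
  obtain ⟨W, hW⟩ : ∃ W, kap d (tr m j) = W := ⟨_, rfl⟩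
  have hW3 : d ≤ 3 * W := by omega
  have h9j : (9 - j) * (4 * m 9 ^ 2) ≤ 6 * (4 * m 9 ^ 2) := Nat.mul_le_mul_right _ (by omega)
  have h9j' : 1 * (4 * m 9 ^ 2) ≤ (9 - j) * (4 * m 9 ^ 2) := Nat.mul_le_mul_right _ (by omega)
  have hanti : ∀ y, y + 1 < W → HS d (tr m j) (y + 1) ≤ HS d (tr m j) y :=
    fun y _ => HS_anti d (tr m j) (Nat.le_succ y)
  have hdrop : ∀ y, y + 1 < W → HS d (tr m j) y ≤ HS d (tr m j) (y + 1) + 2 :=
    fun y hy => HS_drop hR (by omega)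
  have hcor : ∀ y < W, W ≤ y + (9 - j) * (4 * m 9 ^ 2) →
      HS d (tr m j) y = (W - y + (9 - j) - 1) / (9 - j) := by
    intro y hy hy2
    have h5 : (9 - j) * (4 * m 9 ^ 2) ≤ (9 - j) * (m (j - 1) - 1) :=
      Nat.mul_le_mul_left _ (by omega)
    have h6 := HS_corner hR hlev (A := m (j - 1)) (j := j) (x := y) (by rw [e2]; exact h2j)
      hj (fun i hi => by rw [tr_lt hi]; exact hm (by omega))
      (fun i hi _ => tr_ge hi) (by omega) (by omega) (by omega)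
    rw [h6, hW]
    congr 1
    omega
  have hdj := Ico_disj j s
  rw [← Ico_split (j := j) (s := s) (by omega) (s_ge hs (by omega))]
  have hWsub : ∀ x, x ∈ (DS d (tr m j) (d + 1)).image Prod.swap ↔
      x ∈ rowsD W (HS d (tr m j)) := fun x => by
    rw [mem_rowsD, ← hW]
    exact swap_DS hR (by omega) x
  have hcs := corner_sum h9 hb hH0
  refine goodFor_congr (med_corner (m 9) W (9 - j) (HS d (tr m j)) (Finset.Ico j 9)
    (Finset.Ico 9 s) m (by omega) hdj hsmall hcard (by omega) (by omega) hanti hdrop ?_ ?_ hcor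
      ?_ hH0 ?_ hcs) hWsub
  · intro i hi
    have := hb i hi
    omega
  · omega
  · intro y hy hy2
    have h1 := hfm y
    rcases Nat.lt_or_ge y (4 * m 9 ^ 2) with h2 | h2
    · have h3 := H_low hdrop y hy
      exact ⟨by omega, Or.inr (by omega)⟩
    · rw [hf0 y h2]
      have h3 := H_anti hanti y (W - (9 - j) * (4 * m 9 ^ 2)) (by omega) (by omega)
      have h4 := hcor (W - (9 - j) * (4 * m 9 ^ 2)) (by omega) (by omega)
      have h5 : 4 * m 9 ^ 2 ≤ HS d (tr m j) (W - (9 - j) * (4 * m 9 ^ 2)) := by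
        rw [h4, Nat.le_div_iff_mul_le (by omega), mul_comm]
        omega
      exact ⟨by omega, Or.inl rfl⟩
  · intro y hy
    have h1 := hfm y
    have h3 := H_low hdrop y (by omega)
    omega

/-- nine large points, wall -/
theorem case_nine {s : ℕ} {m : ℕ → ℕ} {d : ℕ} (hm : Antitone m) (hs : ∀ i, s ≤ i → m i = 0)
    (hd : m 0 + m 1 + m 2 ≤ d) (h9 : 2 ≤ m 9) (hδ : m 0 + 100 * m 9 ^ 3 ≤ d)
    (hN : 150 * m 9 ^ 3 ≤ d) (h8 : 4 * m 9 ^ 2 + 1 ≤ m 8)
    (hκ : ∑ i ∈ Finset.range 9, m i + 3 * m 9 ^ 2 ≤ 3 * d) : Concl s m d := by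
  obtain ⟨p1, p2, p3, p4, p5⟩ := pow_facts h9
  obtain ⟨hsum, hR⟩ := red_tr hm hd (j := 9) (by norm_num) le_rfl (by omega)
  apply cubic_finish s m d 9 hm hs le_rfl hR
  apply GoodFor.swap
  have e0 : tr m 9 0 = m 0 := tr_lt (by omega)
  have e8 : tr m 9 8 = m 8 := tr_lt (by omega)
  have hk : kap d (tr m 9) = 3 * d - ∑ i ∈ Finset.range 9, m i := by rw [kap, hsum]
  have hH0 : 50 * m 9 ^ 3 ≤ HS d (tr m 9) 0 := by
    have := lt_HS_zero hR (b := 50 * m 9 ^ 3) (by rw [e0]; omega)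
    omega
  have h5 := HS_wall hR (x := kap d (tr m 9) - 1) (by omega)
  rw [e8] at h5
  apply goodFor_of_good (good_wall (m 9) (kap d (tr m 9)) (HS d (tr m 9)) (by omega)
    (fun y _ => HS_anti d (tr m 9) (Nat.le_succ y)) (fun y hy => HS_drop hR hy) (by omega)
    (by omega) hH0) _ (fun i hi => hm (Finset.mem_Ico.1 hi).1)
  intro x
  rw [mem_rowsD]
  exact swap_DS hR (by omega) x

/-- small degree on the cubic: a pencil -/
theorem case_pencil {s : ℕ} {m : ℕ → ℕ} {d : ℕ} (hm : Antitone m) (hs : ∀ i, s ≤ i → m i = 0)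
    (hd : m 0 + m 1 + m 2 ≤ d) (hlt : ∑ i ∈ Finset.range 9, m i < 3 * d) (h9 : 2 ≤ m 9)
    (hκ : 3 * d < ∑ i ∈ Finset.range 9, m i + 3 * m 9 ^ 2)
    (hN : 1000 * m 9 ^ 5 ≤ (3 * d - ∑ i ∈ Finset.range 9, m i) * d) : Concl s m d := by
  have hR : Red d m := ⟨fun i j hij _ => hm hij, hd, hlt⟩
  have hkap : kap d m = 3 * d - ∑ i ∈ Finset.range 9, m i := rfl
  have hkpos := hR.kap_pos
  obtain ⟨p1, p2, p3, p4, p5⟩ := pow_facts h9
  rw [← hkap] at hN
  obtain ⟨κ, hκdef⟩ : ∃ κ, kap d m = κ := ⟨_, rfl⟩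
  rw [hκdef] at hkap hkpos hN
  set M := m 9 with hM
  have hκT : κ < 3 * M ^ 2 := by omega
  -- the index of the pencil
  obtain ⟨k, hk1, hk2⟩ : ∃ k, 3 * M ^ 2 ≤ k * κ ∧ k * κ < 2 * (3 * M ^ 2) := by
    refine ⟨(3 * M ^ 2) / κ + 1, ?_, ?_⟩
    · have := Nat.lt_div_mul_add (a := 3 * M ^ 2) hkpos
      rw [add_mul, one_mul]
      exact this.le
    · have := Nat.div_mul_le_self (3 * M ^ 2) κ
      rw [add_mul, one_mul]
      omega
  have hk : 2 ≤ k := by
    by_contra hcon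
    have : k * κ ≤ 1 * κ := Nat.mul_le_mul_right _ (by omega)
    omega
  obtain ⟨z, F, hPD, -⟩ := Pool.Agent.Helper43.Nod.hex k (by omega)
  have hP := hPD.pencil hk
  apply slab_finish hm hs (by omega) hP hR
  have hgt := rk_hgt hP hk hR
  rw [hκdef] at hgt
  have hra : Antitone (rk (Uk k z d m)) := rk_antitone hP (by omega) d m
  -- the wall
  have h8 : d ≤ 3 * m 8 + 3 * κ := by
    have h01 : m 1 ≤ m 0 := hm (by norm_num)
    have h12 : m 2 ≤ m 1 := hm (by norm_num)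
    have h23 : m 3 ≤ m 2 := hm (by norm_num)
    have h24 : m 4 ≤ m 2 := hm (by norm_num)
    have h25 : m 5 ≤ m 2 := hm (by norm_num)
    have h26 : m 6 ≤ m 2 := hm (by norm_num)
    have h27 : m 7 ≤ m 2 := hm (by norm_num)
    rw [sum9] at hkap hlt
    omega
  have hw : 50 * M ^ 3 ≤ m 8 / k := by
    rw [Nat.le_div_iff_mul_le (by omega)]
    have h1 : κ * d ≤ κ * (3 * m 8 + 3 * κ) := Nat.mul_le_mul_left _ h8
    have h2 : κ * κ ≤ κ * (3 * M ^ 2) := Nat.mul_le_mul_left _ hκT.le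
    have h3 : κ * M ^ 2 ≤ 3 * M ^ 2 * M ^ 2 := Nat.mul_le_mul_right _ hκT.le
    have e3 : 3 * M ^ 2 * M ^ 2 = 3 * M ^ 4 := by ring
    have h4 : 300 * M ^ 5 ≤ κ * m 8 := by
      have e1 : κ * (3 * m 8 + 3 * κ) = 3 * (κ * m 8) + 3 * (κ * κ) := by ring
      have e2 : κ * (3 * M ^ 2) = 3 * (κ * M ^ 2) := by ring
      rw [e1] at h1
      rw [e2] at h2
      rw [e3] at h3
      omega
    have h5 : κ * (50 * M ^ 3 * k) ≤ κ * m 8 := by
      calc κ * (50 * M ^ 3 * k) = 50 * M ^ 3 * (k * κ) := by ring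
        _ ≤ 50 * M ^ 3 * (2 * (3 * M ^ 2)) := Nat.mul_le_mul_left _ hk2.le
        _ = 300 * M ^ 5 := by ring
        _ ≤ _ := h4
    exact Nat.le_of_mul_le_mul_left h5 hkpos
  set r := rk (Uk k z d m) with hr
  set W := k * κ with hWdef
  have hge : ∀ y < W, 50 * M ^ 3 ≤ HR r (d + 1) y := by
    intro y hy
    by_contra hcon
    push Not at hcon
    have h1 : ¬ (HR r (d + 1) y < d + 1 ∧ y < r (HR r (d + 1) y)) := fun h =>
      absurd ((lt_HR hra).2 h) (lt_irrefl _)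
    apply h1
    have h2 : m 8 / k ≤ m 8 := Nat.div_le_self _ _
    have h3 : m 8 ≤ m 0 := hm (by norm_num)
    refine ⟨by omega, ?_⟩
    rw [hgt.wall _ (by omega)]
    exact hy
  have hanti : ∀ y, y + 1 < W → HR r (d + 1) (y + 1) ≤ HR r (d + 1) y := by
    intro y _
    by_contra hcon
    push Not at hcon
    have h1 := (lt_HR hra).1 hcon
    have h2 : HR r (d + 1) y < HR r (d + 1) y := (lt_HR hra).2 ⟨h1.1, by omega⟩
    omega
  have hdrop : ∀ y, y + 1 < W → HR r (d + 1) y ≤ HR r (d + 1) (y + 1) + 2 := by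
    intro y hy
    by_contra hcon
    push Not at hcon
    set t := HR r (d + 1) (y + 1) with ht
    obtain ⟨h1, h2⟩ := (lt_HR hra).1 (show t + 1 < HR r (d + 1) y by omega)
    have h3 : ¬ (t < d + 1 ∧ y + 1 < r t) := fun h =>
      absurd ((lt_HR hra).2 h) (by rw [← ht]; exact lt_irrefl _)
    have h4 : r t ≤ y + 1 := by
      by_contra h5
      exact h3 ⟨by omega, by omega⟩
    have h5 : m 8 / k ≤ t := by
      by_contra h6
      have := hgt.wall t (by omega)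
      omega
    have := hgt.strict t h5 (by omega)
    omega
  have hgood := good_wall M W (HR r (d + 1)) (by omega) hanti hdrop hk1
    (by have := hge (W - 1) (by omega); omega) (hge 0 (by omega))
  apply GoodFor.swap
  apply goodFor_of_good hgood _ (fun i hi => hm (Finset.mem_Ico.1 hi).1)
  intro x
  rw [mem_rowsD, lt_HR hra, Finset.mem_image]
  constructor
  · rintro ⟨c, hc, rfl⟩
    rw [mem_DR] at hc
    simp only [Prod.fst_swap, Prod.snd_swap]
    exact ⟨lt_of_lt_of_le hc.2 (hgt.le _), hc⟩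
  · intro hx
    refine ⟨x.swap, ?_, Prod.swap_swap x⟩
    rw [mem_DR]
    exact hx.2

end Helper18.Np
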