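import Mathlib
import Pool.Agent.Helper18.Np.Big
import Pool.Agent.Helper18.SlabFinal

/-!
The polynomial theorem: reduced systems whose degree is large in terms of the tenth multiplicity.
-/

set_option autoImplicit false

open Module

noncomputable section

namespace Helper18.Np

open Helper18.Shgh Helper18.Cusp Helper18.Slab Helper18.Tw

theorem exists_j {m : ℕ → ℕ} (hm : Antitone m) (A : ℕ) :
    ∃ j ≤ 9, (∀ k ∈ Finset.Ico j 9, m k ≤ A) ∧ (0 < j → A + 1 ≤ m (j - 1)) := by
  have key : ∀ t ≤ 9, (∃ j ≤ 9, (∀ k ∈ Finset.Ico j 9, m k ≤ A) ∧ (0 < j → A + 1 ≤ m (j - 1))) ∨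
      (∀ k ∈ Finset.Ico (9 - t) 9, m k ≤ A) := by
    intro t
    induction t with
    | zero =>
      intro _
      right
      intro k hk
      rw [Finset.mem_Ico] at hk
      omega
    | succ t ih =>
      intro ht
      rcases ih (by omega) with h | h
      · exact Or.inl h
      · by_cases h2 : A + 1 ≤ m (9 - (t + 1))
        · left
          refine ⟨9 - t, by omega, h, fun _ => ?_⟩
          rw [show 9 - t - 1 = 9 - (t + 1) by omega]
          exact h2
        · right
          intro k hk
          rw [Finset.mem_Ico] at hk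
          have : m k ≤ m (9 - (t + 1)) := hm hk.1
          omega
  rcases key 9 le_rfl with h | h
  · exact h
  · exact ⟨0, by norm_num, by simpa using h, fun h => absurd h (lt_irrefl 0)⟩

/-- **The polynomial theorem.** -/
theorem main_poly {s : ℕ} {m : ℕ → ℕ} {d : ℕ} (hm : Antitone m) (hs : ∀ i, s ≤ i → m i = 0)
    (hd : m 0 + m 1 + m 2 ≤ d) (h1 : 610 * m 9 ^ 3 ≤ d)
    (h2 : 60 * m 9 ^ 5 ≤ d ∨ m 0 + 3 * m 9 ^ 2 ≤ d)
    (h3 : ∑ i ∈ Finset.range 9, m i = 3 * d ∨
      1000 * m 9 ^ 5 + (∑ i ∈ Finset.range 9, m i) * d ≤ 3 * d * d) : Concl s m d := by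
  rcases Nat.lt_or_ge (∑ i ∈ Finset.range 9, m i) (3 * d) with hlt | hge
  · rcases Nat.lt_or_ge (m 9) 2 with h9 | h9
    · obtain ⟨hsum, hR⟩ := red_tr hm hd (j := 9) (by norm_num) le_rfl hlt
      exact cubic_finish s m d 9 hm hs le_rfl hR (goodFor_simple hm hs (by omega) _)
    · rcases Nat.lt_or_ge d (m 0 + 3 * m 9 ^ 2) with c1 | c1
      · exact case_strip hm hs hd h9 c1 (by omega)
      · rcases Nat.lt_or_ge d (m 0 + 100 * m 9 ^ 3) with c2 | c2
        · exact case_long hm hs hd h9 c1 c2 h1
        · obtain ⟨j, hj, hj1, hj2⟩ := exists_j hm (4 * m 9 ^ 2)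
          rcases Nat.lt_or_ge j 3 with c3 | c3
          · exact case_toric hm hs hd h9 c2 (by omega) hj1 (fun h => by subst h; exact hj2 (by norm_num))
          · rcases Nat.lt_or_ge j 9 with c4 | c4
            · exact case_cubic hm hs hd h9 c2 (by omega) c3 (by omega) hj1 (hj2 (by omega))
            · have hj9 : j = 9 := by omega
              subst hj9
              rcases Nat.lt_or_ge (3 * d) (∑ i ∈ Finset.range 9, m i + 3 * m 9 ^ 2) with c5 | c5
              · refine case_pencil hm hs hd hlt h9 c5 ?_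
                rcases h3 with h3 | h3
                · omega
                · rw [Nat.sub_mul]
                  omega
              · exact case_nine hm hs hd h9 c2 (by omega) (hj2 (by norm_num)) c5
  · obtain ⟨z, F, -, hU⟩ := Pool.Agent.Helper43.Nod.hex (m 8 + 1) (by omega)
    exact main_zero hm hs hd (Nat.lt_succ_self _) hU hge

end Helper18.Np
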